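import Pool.Agent.P8H98.FM.Mul2

/-!
Project FM (helper98): ASM, asymptotic equality of sequences, the regular factors, weights.
-/

set_option autoImplicit false

open MeasureTheory Complex Filter Topology
open scoped ENNReal NNReal ComplexConjugate

namespace Pool.Agent.P8H98.FM

open Pool.Agent.R923.SE Pool.Agent.K7.H95.GMC

/-! ### Asymptotic equality -/

/-- the quotient tends to one -/
def Eqv (u v : ℕ → ℂ) : Prop := Tendsto (fun n => u n / v n) atTop (𝓝 1)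

lemma Eqv.ne_right {u v : ℕ → ℂ} (h : Eqv u v) : ∀ᶠ n in atTop, v n ≠ 0 := by
  have h1 := h.eventually_ne (one_ne_zero : (1 : ℂ) ≠ 0)
  filter_upwards [h1] with n hn hv
  rw [hv, div_zero] at hn
  exact hn rfl

lemma Eqv.ne_left {u v : ℕ → ℂ} (h : Eqv u v) : ∀ᶠ n in atTop, u n ≠ 0 := by
  have h1 := h.eventually_ne (one_ne_zero : (1 : ℂ) ≠ 0)
  filter_upwards [h1] with n hn hv
  rw [hv, zero_div] at hn
  exact hn rfl

lemma Eqv.mul {u v u' v' : ℕ → ℂ} (h : Eqv u v) (h' : Eqv u' v') :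
    Eqv (fun n => u n * u' n) (fun n => v n * v' n) := by
  have h1 := Tendsto.mul h h'
  rw [one_mul] at h1
  refine h1.congr fun n => ?_
  rw [div_mul_div_comm]

lemma Eqv.inv {u v : ℕ → ℂ} (h : Eqv u v) : Eqv (fun n => (u n)⁻¹) (fun n => (v n)⁻¹) := by
  have h1 := Tendsto.inv₀ h one_ne_zero
  rw [inv_one] at h1
  refine h1.congr fun n => ?_
  rw [inv_div, div_eq_mul_inv, div_eq_mul_inv, inv_inv, mul_comm]

lemma Eqv.div {u v u' v' : ℕ → ℂ} (h : Eqv u v) (h' : Eqv u' v') :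
    Eqv (fun n => u n / u' n) (fun n => v n / v' n) := by
  have := h.mul h'.inv
  simpa only [div_eq_mul_inv] using this

lemma Eqv.symm {u v : ℕ → ℂ} (h : Eqv u v) : Eqv v u := by
  have h1 := Tendsto.inv₀ h one_ne_zero
  rw [inv_one] at h1
  refine h1.congr fun n => ?_
  rw [inv_div]

lemma Eqv.trans {u v w : ℕ → ℂ} (h : Eqv u v) (h' : Eqv v w) : Eqv u w := by
  have h1 := Tendsto.mul h h'
  rw [one_mul] at h1
  refine h1.congr' ?_
  filter_upwards [h.ne_right] with n hn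
  field_simp

lemma Eqv.refl_of {u : ℕ → ℂ} (h : ∀ᶠ n in atTop, u n ≠ 0) : Eqv u u := by
  refine tendsto_const_nhds.congr' ?_
  filter_upwards [h] with n hn
  rw [div_self hn]

lemma Eqv.congr_left {u u' v : ℕ → ℂ} (h : Eqv u v) (e : ∀ᶠ n in atTop, u n = u' n) :
    Eqv u' v := by
  refine Tendsto.congr' ?_ h
  filter_upwards [e] with n hn
  rw [hn]

lemma Eqv.congr_right {u v v' : ℕ → ℂ} (h : Eqv u v) (e : ∀ᶠ n in atTop, v n = v' n) :
    Eqv u v' := by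
  refine Tendsto.congr' ?_ h
  filter_upwards [e] with n hn
  rw [hn]

lemma Eqv.pow {u v : ℕ → ℂ} (h : Eqv u v) (m : ℕ) :
    Eqv (fun n => u n ^ m) (fun n => v n ^ m) := by
  have h1 := Tendsto.pow h m
  rw [one_pow] at h1
  refine h1.congr fun n => ?_
  rw [div_pow]

lemma Eqv.prod {ι : Type*} (A : Finset ι) {u v : ι → ℕ → ℂ} (h : ∀ i ∈ A, Eqv (u i) (v i)) :
    Eqv (fun n => ∏ i ∈ A, u i n) (fun n => ∏ i ∈ A, v i n) := by
  have h1 := tendsto_finsetProd A h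
  simp only [Finset.prod_const_one] at h1
  refine h1.congr fun n => ?_
  rw [Finset.prod_div_distrib]

lemma eqv_exp {f g : ℕ → ℂ} (h : Tendsto (fun n => f n - g n) atTop (𝓝 0)) :
    Eqv (fun n => cexp (f n)) (fun n => cexp (g n)) := by
  have h1 := (Complex.continuous_exp.tendsto 0).comp h
  rw [Complex.exp_zero] at h1
  refine h1.congr fun n => ?_
  simp only [Function.comp]
  rw [Complex.exp_sub]

lemma Eqv.tendsto {u v : ℕ → ℂ} (h : Eqv u v) {c : ℂ} (hv : Tendsto v atTop (𝓝 c)) :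
    Tendsto u atTop (𝓝 c) := by
  have h1 := Tendsto.mul h hv
  rw [one_mul] at h1
  refine h1.congr' ?_
  filter_upwards [h.ne_right] with n hn
  field_simp

lemma eqv_const {u : ℕ → ℂ} {c : ℂ} (hc : c ≠ 0) (h : Tendsto u atTop (𝓝 c)) :
    Eqv u (fun _ => c) := by
  have h1 := h.div_const c
  rwa [div_self hc] at h1

/-! ### The regular factors -/

lemma sc_mul_bc {δ : ℝ} (hδ : 0 < δ) (q : ℂ) {x : ℝ} (hx : 0 ≤ x) :
    sc δ q x * bc δ q x = ((x : ℝ) : ℂ) ^ q := by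
  unfold sc bc
  rw [← Complex.mul_cpow_ofReal_nonneg (by positivity) (by positivity)]
  congr 1
  rw [← Complex.ofReal_mul]
  congr 1
  rcases le_total x δ with h | h
  · rw [min_eq_left ((div_le_one hδ).2 h), max_eq_right h]
    field_simp
  · rw [min_eq_right ((one_le_div hδ).2 h), max_eq_left h, one_mul]

lemma bc_add {δ : ℝ} (hδ : 0 < δ) (q q' : ℂ) (x : ℝ) :
    bc δ (q + q') x = bc δ q x * bc δ q' x := by
  unfold bc
  have h : ((max x δ : ℝ) : ℂ) ≠ 0 := by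
    rw [Complex.ofReal_ne_zero]
    exact (lt_of_lt_of_le hδ (le_max_right _ _)).ne'
  rw [Complex.cpow_add _ _ h]

lemma sc_one {δ : ℝ} (hδ : 0 < δ) (q : ℂ) {x : ℝ} (hx : δ ≤ x) : sc δ q x = 1 := by
  unfold sc
  rw [min_eq_right ((one_le_div hδ).2 hx), Complex.ofReal_one, Complex.one_cpow]

lemma sc_meas (δ : ℝ) (q : ℂ) : Measurable (sc δ q) := by
  unfold sc
  fun_prop

lemma bc_meas (δ : ℝ) (q : ℂ) : Measurable (bc δ q) := by
  unfold bc
  fun_prop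

/-- powers are Lipschitz away from zero -/
lemma cpow_lip {δ : ℝ} (hδ : 0 < δ) (q : ℂ) : ∃ L : ℝ, 0 ≤ L ∧ ∀ x y : ℝ, δ ≤ x → x ≤ 1 →
    δ ≤ y → y ≤ 1 → ‖((x : ℝ) : ℂ) ^ q - ((y : ℝ) : ℂ) ^ q‖ ≤ L * |x - y| := by
  set L : ℝ := ‖q‖ * (δ ^ (q.re - 1) + 1) with hL
  have hL0 : 0 ≤ L := by positivity
  refine ⟨L, hL0, fun x y hx1 hx2 hy1 hy2 => ?_⟩
  have hd : ∀ t ∈ Set.Icc δ 1, HasDerivWithinAt (fun t : ℝ => ((t : ℝ) : ℂ) ^ q)
      (q * ((t : ℝ) : ℂ) ^ (q - 1)) (Set.Icc δ 1) t := by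
    intro t ht
    have ht0 : 0 < t := hδ.trans_le ht.1
    have h1 : HasDerivAt (fun z : ℂ => z ^ q) (q * ((t : ℝ) : ℂ) ^ (q - 1)) (t : ℂ) := by
      have := (hasDerivAt_id (t : ℂ)).cpow_const (c := q)
        (Or.inl (by simpa using ht0) : (id (t : ℂ)) ∈ Complex.slitPlane)
      simpa using this
    exact h1.comp_ofReal.hasDerivWithinAt
  have hb : ∀ t ∈ Set.Icc δ 1, ‖q * ((t : ℝ) : ℂ) ^ (q - 1)‖ ≤ L := by
    intro t ht
    have ht0 : 0 < t := hδ.trans_le ht.1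
    rw [norm_mul, Complex.norm_cpow_eq_rpow_re_of_pos ht0, hL]
    refine mul_le_mul_of_nonneg_left ?_ (norm_nonneg _)
    have e1 : (q - 1).re = q.re - 1 := by simp
    rw [e1]
    rcases le_total 0 (q.re - 1) with h | h
    · have h2 : t ^ (q.re - 1) ≤ 1 := Real.rpow_le_one ht0.le ht.2 h
      have h3 : 0 ≤ δ ^ (q.re - 1) := by positivity
      linarith
    · have h2 : t ^ (q.re - 1) ≤ δ ^ (q.re - 1) := Real.rpow_le_rpow_of_nonpos hδ ht.1 h
      linarith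
  have h := Convex.norm_image_sub_le_of_norm_hasDerivWithin_le hd hb (convex_Icc δ 1)
    ⟨hy1, hy2⟩ ⟨hx1, hx2⟩
  rwa [Real.norm_eq_abs] at h

lemma d2_meas0 (h : Measurable fun p : Om × Om => d2 p.1 p.2) (p : Om) :
    Measurable fun v : Om => d2 v p := by
  have h2 : Measurable fun v : Om => (v, p) := by fun_prop
  have h3 := h.comp h2
  exact h3

lemma d2_meas (hK : S_KER) (p : Om) : Measurable fun v => d2 v p := by
  unfold S_KER at hK
  obtain ⟨-, -, -, -, -, h, -⟩ := hK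
  exact d2_meas0 h p

lemma d2_nonneg (hK : S_KER) (v w : Om) : 0 ≤ d2 v w := (hK.2.2.2.2.2.2.1 v w).1

lemma d2_le_one (hK : S_KER) (v w : Om) : d2 v w ≤ 1 := (hK.2.2.2.2.2.2.1 v w).2.1

lemma d2_symm (hK : S_KER) (v w : Om) : d2 v w = d2 w v := (hK.2.2.2.2.2.2.1 v w).2.2

lemma d2_tri (hK : S_KER) {v w u : Om} (hv : nn2 v ≠ 0) (hw : nn2 w ≠ 0) (hu : nn2 u ≠ 0) :
    √(d2 v w) ≤ √(d2 v u) + √(d2 u w) := hK.2.2.2.2.2.2.2.1 v w u hv hw hu

lemma d2_lip (hK : S_KER) {v w p : Om} (hv : nn2 v ≠ 0) (hw : nn2 w ≠ 0) (hp : nn2 p ≠ 0) :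
    |d2 v p - d2 w p| ≤ 2 * √(d2 v w) := by
  have a1 := d2_tri hK hv hp hw
  have a2 := d2_tri hK hw hp hv
  rw [d2_symm hK w v] at a2
  have q1 := Real.sq_sqrt (d2_nonneg hK v p)
  have q2 := Real.sq_sqrt (d2_nonneg hK w p)
  have s3 : √(d2 v p) ≤ 1 := Real.sqrt_le_one.2 (d2_le_one hK v p)
  have s4 : √(d2 w p) ≤ 1 := Real.sqrt_le_one.2 (d2_le_one hK w p)
  have s1 := Real.sqrt_nonneg (d2 v p)
  have s2 := Real.sqrt_nonneg (d2 w p)
  have s5 := Real.sqrt_nonneg (d2 v w)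
  generalize √(d2 v p) = x at *
  generalize √(d2 w p) = y at *
  generalize √(d2 v w) = z at *
  rw [← q1, ← q2, abs_le]
  constructor <;> nlinarith

lemma bc_norm {δ : ℝ} (hδ : 0 < δ) (q : ℂ) {x : ℝ} (hx : x ≤ 1) (hδ1 : δ ≤ 1) :
    min (δ ^ q.re) 1 ≤ ‖bc δ q x‖ ∧ ‖bc δ q x‖ ≤ max (δ ^ q.re) 1 := by
  have h1 : δ ≤ max x δ := le_max_right _ _
  have h2 : max x δ ≤ 1 := max_le hx hδ1
  have h0 : 0 < max x δ := hδ.trans_le h1
  have h3 : ‖bc δ q x‖ = (max x δ) ^ q.re := by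
    unfold bc
    exact Complex.norm_cpow_eq_rpow_re_of_pos h0 q
  rw [h3]
  rcases le_total 0 q.re with h | h
  · exact ⟨(min_le_left _ _).trans (Real.rpow_le_rpow hδ.le h1 h),
      (Real.rpow_le_one h0.le h2 h).trans (le_max_right _ _)⟩
  · exact ⟨(min_le_right _ _).trans (Real.one_le_rpow_of_pos_of_le_one_of_nonpos h0 h2 h),
      (Real.rpow_le_rpow_of_nonpos hδ h1 h).trans (le_max_left _ _)⟩

lemma bc_Lp (hK : S_KER) {δ : ℝ} (hδ : 0 < δ) (hδ1 : δ ≤ 1) (q : ℂ) {p : Om} (hp : nn2 p ≠ 0) :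
    Lp (fun v => bc δ q (d2 v p)) := by
  obtain ⟨L, hL0, hL⟩ := cpow_lip hδ q
  have hc : 0 < min (δ ^ q.re) 1 := lt_min (Real.rpow_pos_of_pos hδ _) one_pos
  refine ⟨(bc_meas δ q).comp (d2_meas hK p), ⟨L * 2, mul_nonneg hL0 zero_le_two,
    fun v w hv hw => ?_⟩, min (δ ^ q.re) 1, max (δ ^ q.re) 1, hc,
    fun v => bc_norm hδ q (d2_le_one hK v p) hδ1⟩
  have h2 := hL _ _ (le_max_right (d2 v p) δ) (max_le (d2_le_one hK v p) hδ1)
    (le_max_right (d2 w p) δ) (max_le (d2_le_one hK w p) hδ1)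
  have h3 : |max (d2 v p) δ - max (d2 w p) δ| ≤ |d2 v p - d2 w p| := abs_max_sub_max_le_abs _ _ _
  have h5 : L * |max (d2 v p) δ - max (d2 w p) δ| ≤ L * (2 * √(d2 v w)) :=
    mul_le_mul_of_nonneg_left (h3.trans (d2_lip hK hv hw hp)) hL0
  rw [mul_assoc]
  exact h2.trans h5

end Pool.Agent.P8H98.FM
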