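import Pool.Agent.P8H98.FM.Asm0

/-!
Project FM (helper98): ASM, weights and the product of the singular factors.
-/

set_option autoImplicit false

open MeasureTheory Complex Filter Topology
open scoped ENNReal NNReal ComplexConjugate

namespace Pool.Agent.P8H98.FM

open Pool.Agent.R923.SE Pool.Agent.K7.H95.GMC

/-- smaller weights -/
lemma Good.mono (hK : S_KER) {a : Om → ℂ} {ω ω' : Om → ℝ} (h : Good a ω') (hm' : Measurable ω')
    (hω' : ∀ v, ω' v ≤ 1) (hm : Measurable ω) (hω : ∀ v, 0 ≤ ω v ∧ ω v ≤ ω' v) : Good a ω := by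
  obtain ⟨h1, h2, h3, h4, ε, h5, h6⟩ := h
  refine ⟨h1, h2, ?_, h4, ε, h5, ?_⟩
  · refine Integrable.mono' h3 ((hm.pow_const 2).mul (h1.norm.pow_const 2)).aestronglyMeasurable
      (ae_of_all _ fun v => ?_)
    rw [Real.norm_of_nonneg (by positivity)]
    exact mul_le_mul_of_nonneg_right (pow_le_pow_left₀ (hω v).1 (hω v).2 2) (by positivity)
  · filter_upwards [h6] with n hn e
    refine le_trans ?_ (hn e)
    have h0 : ∀ v, 0 ≤ ω' v ∧ ω' v ≤ 1 := fun v => ⟨(hω v).1.trans (hω v).2, hω' v⟩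
    refine integral_mono_of_nonneg (ae_of_all _ fun v => by positivity)
      (int_xf hK hm' h0 h1 h3 e) (ae_of_all _ fun v => ?_)
    exact mul_le_mul_of_nonneg_right (pow_le_pow_left₀ (hω v).1 (hω v).2 2) (by positivity)

lemma Lp_one : Lp (fun _ => 1) :=
  ⟨measurable_const, ⟨0, le_rfl, fun v w _ _ => by simp⟩, 1, 1, one_pos, fun v => by simp⟩

lemma PB_of_Lp (hL : S_LIP) {b : Om → ℂ} (hb : Lp b) : PB b := by
  obtain ⟨C, hC⟩ := hL.2.2 b hb
  refine ⟨1, one_pos, ?_⟩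
  have h1 : ∀ᶠ n : ℕ in atTop, C ≤ n :=
    tendsto_natCast_atTop_atTop.eventually_ge_atTop C
  filter_upwards [hC, h1] with n hn hn1
  refine ⟨hn.1, fun x => (hn.2.1 x).trans ?_⟩
  rw [Real.rpow_one]
  exact mul_le_mul_of_nonneg_right hn1 (ns_nonneg x)

/-- the weight -/
noncomputable def wt {k : ℕ} (P : Fin k → Om) (κ : ℝ) (v : Om) : ℝ := ∏ i, d2 v (P i) ^ (κ / 2)

lemma d2_integrable (hK : S_KER) {p : Om} (hp : nn2 p ≠ 0) {a : ℝ} (ha : -1 < a) :
    Integrable (fun v => d2 v p ^ a) sg := by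
  have hm : Measurable fun v => d2 v p ^ a := (d2_meas hK p).pow_const a
  refine ⟨hm.aestronglyMeasurable, ?_⟩
  rw [hasFiniteIntegral_iff_enorm]
  have hlaw := hK.2.2.2.2.2.2.2.2 p hp (fun x => ENNReal.ofReal (x ^ a)) (by fun_prop)
  have h1 : ∫⁻ v, ‖d2 v p ^ a‖ₑ ∂sg = ∫⁻ v, ENNReal.ofReal (d2 v p ^ a) ∂sg := by
    refine lintegral_congr fun v => ?_
    rw [← ofReal_norm, Real.norm_of_nonneg (Real.rpow_nonneg (d2_nonneg hK v p) a)]
  rw [h1, hlaw]
  have h2 : IntegrableOn (fun x : ℝ => x ^ a) (Set.Icc 0 1) volume := by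
    have := intervalIntegral.intervalIntegrable_rpow' (a := 0) (b := 1) ha
    rwa [intervalIntegrable_iff_integrableOn_Icc_of_le zero_le_one] at this
  have h3 := h2.2
  rw [hasFiniteIntegral_iff_enorm] at h3
  refine lt_of_le_of_lt (lintegral_mono fun x => ?_) h3
  rw [← ofReal_norm]
  exact ENNReal.ofReal_le_ofReal (Real.le_norm_self _)

lemma d2_pos_ae (hK : S_KER) {p : Om} (hp : nn2 p ≠ 0) : ∀ᵐ v ∂sg, 0 < d2 v p := by
  have hlaw := hK.2.2.2.2.2.2.2.2 p hp (Set.indicator (Set.Iic 0) fun _ => 1)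
    (measurable_const.indicator measurableSet_Iic)
  have h1 : ∫⁻ t in Set.Icc (0 : ℝ) 1, Set.indicator (Set.Iic 0) (fun _ => (1 : ℝ≥0∞)) t = 0 := by
    rw [lintegral_indicator measurableSet_Iic, Measure.restrict_restrict measurableSet_Iic,
      setLIntegral_const, one_mul]
    have h2 : Set.Iic (0 : ℝ) ∩ Set.Icc 0 1 ⊆ {0} := fun x hx => le_antisymm hx.1 hx.2.1
    exact measure_mono_null h2 (by simp)
  rw [h1] at hlaw
  have hmeas : MeasurableSet {v : Om | d2 v p ≤ 0} := measurableSet_le (d2_meas hK p) measurable_const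
  have h3 : sg {v : Om | d2 v p ≤ 0} = 0 := by
    have h4 : ∫⁻ v, Set.indicator (Set.Iic 0) (fun _ => (1 : ℝ≥0∞)) (d2 v p) ∂sg =
        ∫⁻ v, Set.indicator {v : Om | d2 v p ≤ 0} (fun _ => (1 : ℝ≥0∞)) v ∂sg := by
      refine lintegral_congr fun v => ?_
      simp only [Set.indicator, Set.mem_Iic, Set.mem_ofPred_eq]
    rw [h4, lintegral_indicator hmeas, setLIntegral_const, one_mul] at hlaw
    exact hlaw
  rw [ae_iff]
  simpa only [not_lt] using h3

lemma wt_Wt (hK : S_KER) {k : ℕ} {P : Fin k → Om} (hP : ∀ i, nn2 (P i) ≠ 0) {δ κ : ℝ}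
    (hδ : 0 < δ) (hδ1 : δ ≤ 1) (hκ : 0 < κ) (hκ1 : κ < 1)
    (hsep : ∀ v, nn2 v ≠ 0 → ∀ i j, i ≠ j → d2 v (P i) < δ → δ ≤ d2 v (P j)) : Wt (wt P κ) := by
  have hm : Measurable (wt P κ) := by
    unfold wt
    exact Finset.measurable_prod _ fun i _ => (d2_meas hK (P i)).pow_const _
  have hae : ∀ᵐ v ∂sg, ∀ i, 0 < d2 v (P i) := ae_all_iff.2 fun i => d2_pos_ae hK (hP i)
  refine ⟨hm, fun v => ⟨Finset.prod_nonneg fun i _ => Real.rpow_nonneg (d2_nonneg hK _ _) _,
    Finset.prod_le_one (fun i _ => Real.rpow_nonneg (d2_nonneg hK _ _) _)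
      fun i _ => Real.rpow_le_one (d2_nonneg hK _ _) (d2_le_one hK _ _) (by positivity)⟩, ?_, ?_⟩
  · filter_upwards [hae] with v hv
    exact Finset.prod_pos fun i _ => Real.rpow_pos_of_pos (hv i) _
  · set D : ℝ := (δ ^ (-κ)) ^ k with hD
    have hδκ : 1 ≤ δ ^ (-κ) := Real.one_le_rpow_of_pos_of_le_one_of_nonpos hδ hδ1 (by linarith)
    have hi : Integrable (fun v => D * (1 + ∑ i, d2 v (P i) ^ (-κ))) sg :=
      ((integrable_const (1 : ℝ)).add (integrable_finsetSum _ fun i _ =>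
        d2_integrable hK (hP i) (by linarith))).const_mul D
    refine Integrable.mono' hi (hm.pow_const 2).inv.aestronglyMeasurable ?_
    filter_upwards [hae, ae_nn2 hK] with v hv hvn
    rw [Real.norm_of_nonneg (by positivity)]
    have e1 : (wt P κ v ^ 2)⁻¹ = ∏ i, d2 v (P i) ^ (-κ) := by
      unfold wt
      rw [← Finset.prod_pow, ← Finset.prod_inv_distrib]
      refine Finset.prod_congr rfl fun i _ => ?_
      rw [← Real.rpow_natCast, ← Real.rpow_mul (hv i).le, Real.rpow_neg (hv i).le]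
      congr 2
      push_cast
      ring
    rw [e1]
    have hfac : ∀ i, 1 ≤ d2 v (P i) ^ (-κ) := fun i =>
      Real.one_le_rpow_of_pos_of_le_one_of_nonpos (hv i) (d2_le_one hK _ _) (by linarith)
    have hbig : ∀ i, δ ≤ d2 v (P i) → d2 v (P i) ^ (-κ) ≤ δ ^ (-κ) := fun i hi =>
      Real.rpow_le_rpow_of_nonpos hδ hi (by linarith)
    by_cases hcase : ∃ i, d2 v (P i) < δ
    · obtain ⟨i, hi⟩ := hcase
      rw [← Finset.mul_prod_erase _ _ (Finset.mem_univ i)]
      have h1 : ∏ j ∈ Finset.univ.erase i, d2 v (P j) ^ (-κ) ≤ D := by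
        calc ∏ j ∈ Finset.univ.erase i, d2 v (P j) ^ (-κ) ≤
            ∏ j ∈ Finset.univ.erase i, δ ^ (-κ) :=
              Finset.prod_le_prod (fun j _ => zero_le_one.trans (hfac j)) fun j hj =>
                hbig j (hsep v hvn i j (Finset.ne_of_mem_erase hj).symm hi)
          _ = (δ ^ (-κ)) ^ (k - 1) := by
              rw [Finset.prod_const, Finset.card_erase_of_mem (Finset.mem_univ i),
                Finset.card_univ, Fintype.card_fin]
          _ ≤ D := pow_le_pow_right₀ hδκ (Nat.sub_le _ _)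
      have h2 : d2 v (P i) ^ (-κ) ≤ ∑ j, d2 v (P j) ^ (-κ) :=
        Finset.single_le_sum (f := fun j => d2 v (P j) ^ (-κ))
          (fun j _ => zero_le_one.trans (hfac j)) (Finset.mem_univ i)
      have h3 : 0 ≤ d2 v (P i) ^ (-κ) := zero_le_one.trans (hfac i)
      have h4 : 0 ≤ D := by positivity
      calc d2 v (P i) ^ (-κ) * ∏ j ∈ Finset.univ.erase i, d2 v (P j) ^ (-κ) ≤
          d2 v (P i) ^ (-κ) * D := mul_le_mul_of_nonneg_left h1 h3
        _ ≤ D * (1 + ∑ j, d2 v (P j) ^ (-κ)) := by nlinarith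
    · push Not at hcase
      have h1 : ∏ j, d2 v (P j) ^ (-κ) ≤ D := by
        calc ∏ j, d2 v (P j) ^ (-κ) ≤ ∏ j : Fin k, δ ^ (-κ) :=
              Finset.prod_le_prod (fun j _ => zero_le_one.trans (hfac j)) fun j _ =>
                hbig j (hcase j)
          _ = D := by rw [Finset.prod_const, Finset.card_univ, Fintype.card_fin]
      have h2 : 0 ≤ ∑ j, d2 v (P j) ^ (-κ) :=
        Finset.sum_nonneg fun j _ => zero_le_one.trans (hfac j)
      have h4 : 0 ≤ D := by positivity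
      nlinarith

lemma wt_le (hK : S_KER) {k : ℕ} {P : Fin k → Om} {κ : ℝ} (hκ : 0 < κ) (i : Fin k) (v : Om) :
    0 ≤ wt P κ v ∧ wt P κ v ≤ d2 v (P i) ^ (κ / 2) := by
  have h0 : ∀ j, 0 ≤ d2 v (P j) ^ (κ / 2) := fun j => Real.rpow_nonneg (d2_nonneg hK _ _) _
  refine ⟨Finset.prod_nonneg fun j _ => h0 j, ?_⟩
  unfold wt
  rw [← Finset.mul_prod_erase _ _ (Finset.mem_univ i)]
  refine mul_le_of_le_one_right (h0 i) (Finset.prod_le_one (fun j _ => h0 j) fun j _ => ?_)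
  exact Real.rpow_le_one (d2_nonneg hK _ _) (d2_le_one hK _ _) (by positivity)

end Pool.Agent.P8H98.FM
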