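import Pool.Agent.P8H98.FM.Asm1

/-!
Project FM (helper98): ASM, the products of the singular and of the regular factors.
-/

set_option autoImplicit false

open MeasureTheory Complex Filter Topology
open scoped ENNReal NNReal ComplexConjugate

namespace Pool.Agent.P8H98.FM

open Pool.Agent.R923.SE Pool.Agent.K7.H95.GMC

/-- separation of the points -/
lemma sep_pts (hK : S_KER) {δ : ℝ} {v w p p' : Om} (hv : nn2 v ≠ 0)
    (hw : nn2 w ≠ 0) (hp : nn2 p ≠ 0) (hp' : nn2 p' ≠ 0) (h : 16 * δ ≤ d2 p p')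
    (h1 : d2 v p < δ) (h2 : d2 w p' < δ) : δ ≤ d2 v w := by
  have a1 := d2_tri hK hp hp' hv
  have a2 := d2_tri hK hv hp' hw
  rw [d2_symm hK p v] at a1
  have b1 : √(d2 v p) ≤ √δ := Real.sqrt_le_sqrt h1.le
  have b2 : √(d2 w p') ≤ √δ := Real.sqrt_le_sqrt h2.le
  have b3 : √(16 * δ) ≤ √(d2 p p') := Real.sqrt_le_sqrt h
  have b4 : √(16 * δ) = 4 * √δ := by
    rw [Real.sqrt_mul (by norm_num), show (16 : ℝ) = 4 ^ 2 by norm_num,
      Real.sqrt_sq (by norm_num)]
  have b5 : √δ ≤ √(d2 v w) := by linarith [Real.sqrt_nonneg δ]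
  exact (Real.sqrt_le_sqrt_iff (d2_nonneg hK v w)).1 b5

variable {k : ℕ}

/-- the singular factor -/
noncomputable def sf (δ : ℝ) (P : Om) (q : ℂ) (v : Om) : ℂ := sc δ q (d2 v P)

/-- the regular factor -/
noncomputable def bf (δ : ℝ) (P : Om) (q : ℂ) (v : Om) : ℂ := bc δ q (d2 v P)

/-- the symbol -/
noncomputable def hf (P : Om) (q : ℂ) (v : Om) : ℂ := ((d2 v P : ℝ) : ℂ) ^ q

lemma sf_bf (hK : S_KER) {δ : ℝ} (hδ : 0 < δ) (P : Om) (q : ℂ) (v : Om) :
    sf δ P q v * bf δ P q v = hf P q v := sc_mul_bc hδ q (d2_nonneg hK _ _)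

lemma bf_Lp (hK : S_KER) {δ : ℝ} (hδ : 0 < δ) (hδ1 : δ ≤ 1) (q : ℂ) {p : Om} (hp : nn2 p ≠ 0) :
    Lp (bf δ p q) := bc_Lp hK hδ hδ1 q hp

/-- everything on the product of the singular factors -/
def SQ (δ κ : ℝ) (P : Fin k → Om) (q : Fin k → ℂ) (A : Finset (Fin k)) : Prop :=
  Good (fun v => ∏ i ∈ A, sf δ (P i) (q i) v) (wt P κ) ∧
  PB (fun v => ∏ i ∈ A, sf δ (P i) (q i) v) ∧
  Eqv (fun n => DD n (fun v => ∏ i ∈ A, sf δ (P i) (q i) v))
    (fun n => ∏ i ∈ A, DD n (sf δ (P i) (q i))) ∧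
  ∀ b, Lp b → Tendsto (fun n => tn n (fun v => ∏ i ∈ A, sf δ (P i) (q i) v) b -
    ∑ i ∈ A, tn n (sf δ (P i) (q i)) b) atTop (𝓝 0)

lemma SQ_all (hK : S_KER) (hO : S_ONB) (hL : S_LIP) (hM : S_MUL) (hS : S_SEP) (hR : S_RAD)
    {δ κ : ℝ} {P : Fin k → Om} {q : Fin k → ℂ} (hP : ∀ i, nn2 (P i) ≠ 0) (hδ : 0 < δ)
    (hδ1 : δ ≤ 1) (hsep : ∀ i j, i ≠ j → 16 * δ ≤ d2 (P i) (P j)) (hκ : 0 < κ) (hκ1 : κ < 1)
    (hq : ∀ i, -1 < (q i).re) (hqκ : ∀ i, -1 < 2 * (q i).re + κ) (A : Finset (Fin k)) :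
    SQ δ κ P q A := by
  have hW : Wt (wt P κ) := wt_Wt hK hP hδ hδ1 hκ hκ1 fun v hv i j hij hi => by
    by_contra hcon
    push Not at hcon
    have h1 := sep_pts hK hv hv (hP i) (hP j) (hsep i j hij) hi hcon
    have h2 : d2 v v = 0 := by
      unfold d2 hp
      have h3 : ‖v.1 * conj v.1 + v.2 * conj v.2‖ = nn2 v := by
        rw [Complex.mul_conj', Complex.mul_conj', ← Complex.ofReal_pow, ← Complex.ofReal_pow,
          ← Complex.ofReal_add, Complex.norm_real, Real.norm_of_nonneg (by positivity)]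
        rfl
      rw [h3]
      field_simp
      ring
    linarith
  have hs : ∀ i, Good (sf δ (P i) (q i)) (wt P κ) ∧ PB (sf δ (P i) (q i)) := by
    intro i
    obtain ⟨h1, h2⟩ := hR.1 (P i) δ (q i) κ (hP i) hδ hδ1 (hq i) hκ hκ1 (hqκ i)
    refine ⟨h1.mono hK ((d2_meas hK (P i)).pow_const _) (fun v =>
      Real.rpow_le_one (d2_nonneg hK _ _) (d2_le_one hK _ _) (by positivity)) hW.1
      fun v => wt_le hK hκ i v, h2⟩
  induction A using Finset.induction_on with
  | empty =>
    have hg : Good (fun _ : Om => (1 : ℂ)) (fun _ => 1) := hM.2.2.1 _ Lp_one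
    refine ⟨?_, ?_, ?_, ?_⟩
    · simp only [Finset.prod_empty]
      exact hg.mono hK measurable_const (fun _ => le_rfl) hW.1 hW.2.1
    · simp only [Finset.prod_empty]
      exact PB_of_Lp hL Lp_one
    · simp only [Finset.prod_empty]
      have h1 : ∀ n, DD n (fun _ => 1) = 1 := by
        intro n
        unfold DD
        rw [hO.1 n, Matrix.det_one]
      simp only [h1]
      exact Eqv.refl_of (Eventually.of_forall fun _ => one_ne_zero)
    · intro b hb
      simp only [Finset.prod_empty, Finset.sum_empty, sub_zero]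
      obtain ⟨C, hC⟩ := hL.2.2 b hb
      refine tendsto_const_nhds.congr' ?_
      filter_upwards [hC] with n hn
      unfold tn
      simp only [one_mul]
      rw [hO.1 n, inv_one, one_mul, Matrix.mul_nonsing_inv _ (isUnit_iff_ne_zero.2 hn.1),
        Matrix.trace_one, Fintype.card_fin, sub_self]
  | insert i A hi ih =>
    obtain ⟨h1, h2, h3, h4⟩ := ih
    have hfar : Far (sf δ (P i) (q i)) (fun v => ∏ i ∈ A, sf δ (P i) (q i) v) := by
      refine ⟨δ, hδ, fun v w hv hw h5 h6 => ?_⟩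
      have h7 : d2 v (P i) < δ := by
        by_contra hcon
        push Not at hcon
        exact h5 (sc_one hδ _ hcon)
      obtain ⟨j, hj, h8⟩ : ∃ j ∈ A, sf δ (P j) (q j) w ≠ 1 := by
        by_contra hcon
        push Not at hcon
        exact h6 (Finset.prod_eq_one hcon)
      have h9 : d2 w (P j) < δ := by
        by_contra hcon
        push Not at hcon
        exact h8 (sc_one hδ _ hcon)
      have hij : i ≠ j := fun h => hi (h ▸ hj)
      exact sep_pts hK hv hw (hP i) (hP j) (hsep i j hij) h7 h9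
    obtain ⟨g1, g2, g3, g4⟩ := hS _ _ _ hW (hs i).1 h1 (hs i).2 h2 hfar
    have e1 : (fun v => ∏ j ∈ insert i A, sf δ (P j) (q j) v) =
        fun v => sf δ (P i) (q i) v * ∏ j ∈ A, sf δ (P j) (q j) v := by
      funext v
      rw [Finset.prod_insert hi]
    refine ⟨?_, ?_, ?_, ?_⟩
    · rw [e1]; exact g1
    · rw [e1]; exact g2
    · rw [e1]
      have h5 : Eqv (fun n => DD n (fun v => sf δ (P i) (q i) v * ∏ j ∈ A, sf δ (P j) (q j) v))
          (fun n => DD n (sf δ (P i) (q i)) * DD n (fun v => ∏ j ∈ A, sf δ (P j) (q j) v)) := g3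
      have h6 : Eqv (fun n => DD n (sf δ (P i) (q i))) (fun n => DD n (sf δ (P i) (q i))) :=
        Eqv.refl_of (hs i).1.2.2.2.1
      refine (h5.trans (h6.mul h3)).congr_right (Eventually.of_forall fun n => ?_)
      rw [Finset.prod_insert hi]
    · intro b hb
      rw [e1]
      have h5 := (g4 b hb).add (h4 b hb)
      rw [add_zero] at h5
      refine h5.congr fun n => ?_
      rw [Finset.sum_insert hi]
      ring

/-- products of regular factors -/
lemma Lp_prod (hL : S_LIP) {b : Fin k → Om → ℂ} (hb : ∀ i, Lp (b i)) (A : Finset (Fin k)) :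
    Lp (fun v => ∏ i ∈ A, b i v) := by
  induction A using Finset.induction_on with
  | empty => simpa using Lp_one
  | insert i A hi ih =>
    have := hL.1 _ _ (hb i) ih
    simpa only [Finset.prod_insert hi] using this

lemma tn_one (hO : S_ONB) {a : Om → ℂ} (ha : ∀ᶠ n : ℕ in atTop, (TT n a).det ≠ 0) :
    Tendsto (fun n => tn n a (fun _ => 1)) atTop (𝓝 0) := by
  refine tendsto_const_nhds.congr' ?_
  filter_upwards [ha] with n hn
  unfold tn
  simp only [mul_one]
  rw [hO.1 n, inv_one, mul_one, Matrix.nonsing_inv_mul _ (isUnit_iff_ne_zero.2 hn),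
    Matrix.trace_one, Fintype.card_fin, sub_self]

/-- additivity in the second slot, products -/
lemma tn_prod (hO : S_ONB) (hL : S_LIP) (hM : S_MUL) {a : Om → ℂ} {ω : Om → ℝ} (ha : Good a ω)
    (hω : Wt ω) {b : Fin k → Om → ℂ} (hb : ∀ i, Lp (b i)) (A : Finset (Fin k)) :
    Tendsto (fun n => tn n a (fun v => ∏ i ∈ A, b i v) - ∑ i ∈ A, tn n a (b i)) atTop (𝓝 0) := by
  induction A using Finset.induction_on with
  | empty =>
    simp only [Finset.prod_empty, Finset.sum_empty, sub_zero]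
    exact tn_one hO ha.2.2.2.1
  | insert i A hi ih =>
    have h1 := (hM.2.1 a ω _ _ ha hω (hb i) (Lp_prod hL hb A)).add ih
    rw [add_zero] at h1
    refine h1.congr fun n => ?_
    rw [Finset.sum_insert hi]
    simp only [Finset.prod_insert hi]
    ring

lemma Wt_one : Wt (fun _ => 1) :=
  ⟨measurable_const, fun _ => ⟨zero_le_one, le_rfl⟩, ae_of_all _ fun _ => one_pos, by simp⟩

/-- additivity in the first slot, Lipschitz symbols, products -/
lemma tn_prod' (hO : S_ONB) (hL : S_LIP) (hM : S_MUL) {c : Om → ℂ} (hc : Lp c)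
    {b : Fin k → Om → ℂ} (hb : ∀ i, Lp (b i)) (A : Finset (Fin k)) :
    Tendsto (fun n => tn n (fun v => ∏ i ∈ A, b i v) c - ∑ i ∈ A, tn n (b i) c) atTop (𝓝 0) := by
  have hc' := hL.2.1 c hc
  have h1 := tn_prod hO hL hM (hM.2.2.1 _ hc') Wt_one (fun i => hL.2.1 _ (hb i)) A
  have h2 := (Complex.continuous_conj.tendsto 0).comp h1
  rw [map_zero] at h2
  refine h2.congr fun n => ?_
  simp only [Function.comp, map_sub, map_sum]
  congr 1
  · rw [hM.2.2.2 _ _ (Lp_prod hL hb A) hc n]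
    simp only [map_prod]
  · exact Finset.sum_congr rfl fun i _ => (hM.2.2.2 _ _ (hb i) hc n).symm

/-- the determinant of a product of Lipschitz symbols -/
lemma DD_prod (hO : S_ONB) (hL : S_LIP) (hM : S_MUL) {b : Fin k → Om → ℂ} (hb : ∀ i, Lp (b i))
    (A : Finset (Fin k)) : Eqv (fun n => DD n (fun v => ∏ i ∈ A, b i v))
      (fun n => (∏ i ∈ A, DD n (b i)) *
        cexp (∑ i ∈ A, ∑ j ∈ A.filter (fun j => i < j), tn n (b i) (b j))) := by
  induction A using Finset.induction_on_max with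
  | empty =>
    simp only [Finset.prod_empty, Finset.sum_empty, Complex.exp_zero, mul_one]
    have h1 : ∀ n, DD n (fun _ => 1) = 1 := by
      intro n
      unfold DD
      rw [hO.1 n, Matrix.det_one]
    simp only [h1]
    exact Eqv.refl_of (Eventually.of_forall fun _ => one_ne_zero)
  | insert m A hm ih =>
    have hmA : m ∉ A := fun h => lt_irrefl _ (hm m h)
    have hB := Lp_prod hL hb A
    have h1 := hM.1 _ _ _ (hM.2.2.1 _ hB) Wt_one (hb m)
    have h2 : Eqv (fun n => DD n (fun v => (∏ i ∈ A, b i v) * b m v))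
        (fun n => DD n (fun v => ∏ i ∈ A, b i v) * DD n (b m) *
          cexp (tn n (fun v => ∏ i ∈ A, b i v) (b m))) := by
      refine h1.congr fun n => ?_
      rw [Complex.exp_neg]
      rw [← div_eq_mul_inv, div_div]
    have h3 : Eqv (fun n => cexp (tn n (fun v => ∏ i ∈ A, b i v) (b m)))
        (fun n => cexp (∑ i ∈ A, tn n (b i) (b m))) := eqv_exp (tn_prod' hO hL hM (hb m) hb A)
    have h4 : Eqv (fun n => DD n (b m)) (fun n => DD n (b m)) :=
      Eqv.refl_of ((hM.2.2.1 _ (hb m)).2.2.2.1)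
    have h5 := h2.trans ((ih.mul h4).mul h3)
    have e1 : (fun v => ∏ i ∈ insert m A, b i v) = fun v => (∏ i ∈ A, b i v) * b m v := by
      funext v
      rw [Finset.prod_insert hmA, mul_comm]
    rw [e1]
    refine h5.congr_right (Eventually.of_forall fun n => ?_)
    rw [Finset.prod_insert hmA, Finset.sum_insert hmA]
    have e2 : (insert m A).filter (fun j => m < j) = ∅ := by
      rw [Finset.filter_eq_empty_iff]
      intro j hj
      rcases Finset.mem_insert.1 hj with h | h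
      · rw [h]; exact lt_irrefl _
      · exact not_lt.2 (hm j h).le
    have e3 : ∀ i ∈ A, ∑ j ∈ (insert m A).filter (fun j => i < j), tn n (b i) (b j) =
        tn n (b i) (b m) + ∑ j ∈ A.filter (fun j => i < j), tn n (b i) (b j) := by
      intro i hi
      rw [Finset.filter_insert, if_pos (hm i hi), Finset.sum_insert]
      exact fun h => hmA (Finset.mem_filter.1 h).1
    rw [e2, Finset.sum_empty, zero_add, Finset.sum_congr rfl e3, Finset.sum_add_distrib,
      Complex.exp_add]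
    ring

end Pool.Agent.P8H98.FM
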