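import Pool.Agent.P8H98.FM.Asm2

/-!
Project FM (helper98): ASM, the structure of the multi point function.
-/

set_option autoImplicit false

open MeasureTheory Complex Filter Topology
open scoped ENNReal NNReal ComplexConjugate

namespace Pool.Agent.P8H98.FM

open Pool.Agent.R923.SE Pool.Agent.K7.H95.GMC

variable {k : ℕ}

lemma sum_split (f : Fin k → Fin k → ℂ) : ∑ i, ∑ j, f i j = ∑ i, f i i +
    ∑ i, ∑ j ∈ Finset.univ.filter (fun j => i < j), (f i j + f j i) := by
  have h1 : ∀ i, ∑ j, f i j = f i i + ∑ j ∈ Finset.univ.filter (fun j => i < j), f i j +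
      ∑ j ∈ Finset.univ.filter (fun j => j < i), f i j := by
    intro i
    rw [← Finset.sum_filter_add_sum_filter_not Finset.univ (fun j => i < j)]
    have h2 : (Finset.univ.filter fun j : Fin k => ¬i < j) =
        insert i (Finset.univ.filter fun j => j < i) := by
      ext j
      simp only [Finset.mem_filter, Finset.mem_univ, true_and, Finset.mem_insert, not_lt]
      rw [le_iff_eq_or_lt]
    rw [h2, Finset.sum_insert (by simp)]
    ring
  have h3 : ∑ i, ∑ j ∈ Finset.univ.filter (fun j => j < i), f i j =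
      ∑ i, ∑ j ∈ Finset.univ.filter (fun j => i < j), f j i := by
    refine Finset.sum_comm' ?_
    intro x y
    simp
  simp only [h1, Finset.sum_add_distrib]
  rw [h3]
  ring

/-- the pair interaction -/
noncomputable def Lm (n : ℕ) (δ : ℝ) (p p' : Om) (q q' : ℂ) : ℂ :=
  tn n (sf δ p q) (bf δ p' q') + tn n (sf δ p' q') (bf δ p q) + tn n (bf δ p q) (bf δ p' q')

/-- **structure of the multi point function** -/
theorem struct (hK : S_KER) (hO : S_ONB) (hL : S_LIP) (hM : S_MUL) (hS : S_SEP) (hR : S_RAD)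
    {δ : ℝ} {P : Fin k → Om} {q : Fin k → ℂ} (hP : ∀ i, nn2 (P i) ≠ 0) (hδ : 0 < δ)
    (hδ1 : δ ≤ 1) (hsep : ∀ i j, i ≠ j → 16 * δ ≤ d2 (P i) (P j))
    (hq : ∀ i, -1 < (q i).re) :
    Eqv (fun n => DD n (fun v => ∏ i, hf (P i) (q i) v) / ∏ i, DD n (hf (P i) (q i)))
      (fun n => cexp (∑ i, ∑ j ∈ Finset.univ.filter (fun j => i < j),
        Lm n δ (P i) (P j) (q i) (q j))) := by
  -- the exponent of the weight
  obtain ⟨κ, hκ, hκ1, hqκ⟩ : ∃ κ : ℝ, 0 < κ ∧ κ < 1 ∧ ∀ i, -1 < 2 * (q i).re + κ := by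
    have h1 : ∀ A : Finset (Fin k), ∃ κ : ℝ, 0 < κ ∧ κ < 1 ∧ ∀ i ∈ A, -1 < 2 * (q i).re + κ := by
      intro A
      induction A using Finset.induction_on with
      | empty => exact ⟨1 / 2, by norm_num, by norm_num, by simp⟩
      | insert i A hi ih =>
        obtain ⟨κ, h1, h2, h3⟩ := ih
        have h4 : max κ (-1 - 2 * (q i).re) < 1 := max_lt h2 (by linarith [hq i])
        obtain ⟨κ', h5, h6⟩ := exists_between h4
        refine ⟨κ', h1.trans (lt_of_le_of_lt (le_max_left _ _) h5), h6, fun j hj => ?_⟩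
        rcases Finset.mem_insert.1 hj with h | h
        · rw [h]
          have := lt_of_le_of_lt (le_max_right κ (-1 - 2 * (q i).re)) h5
          linarith
        · have := lt_of_le_of_lt (le_max_left κ (-1 - 2 * (q i).re)) h5
          linarith [h3 j h]
    obtain ⟨κ, h2, h3, h4⟩ := h1 Finset.univ
    exact ⟨κ, h2, h3, fun i => h4 i (Finset.mem_univ i)⟩
  have hSQ := SQ_all (k := k) hK hO hL hM hS hR hP hδ hδ1 hsep hκ hκ1 hq hqκ
  have hW : Wt (wt P κ) := wt_Wt hK hP hδ hδ1 hκ hκ1 fun v hv i j hij hi => by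
    by_contra hcon
    push Not at hcon
    have h1 := sep_pts hK hv hv (hP i) (hP j) (hsep i j hij) hi hcon
    have h2 : d2 v v = 0 := by
      unfold d2 hp
      have h3 : ‖v.1 * conj v.1 + v.2 * conj v.2‖ = nn2 v := by
        rw [Complex.mul_conj', Complex.mul_conj', ← Complex.ofReal_pow, ← Complex.ofReal_pow,
          ← Complex.ofReal_add, Complex.norm_real, Real.norm_of_nonneg (by positivity)]
        rfl
      rw [h3]
      field_simp
      ring
    linarith
  have hb : ∀ i, Lp (bf δ (P i) (q i)) := fun i => bf_Lp hK hδ hδ1 (q i) (hP i)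
  have hs : ∀ i, Good (sf δ (P i) (q i)) (wt P κ) := by
    intro i
    have := (hSQ {i}).1
    simpa using this
  set S : Om → ℂ := fun v => ∏ i, sf δ (P i) (q i) v with hSd
  set B : Om → ℂ := fun v => ∏ i, bf δ (P i) (q i) v with hBd
  obtain ⟨g1, g2, g3, g4⟩ := hSQ Finset.univ
  have hBL : Lp B := Lp_prod hL hb Finset.univ
  -- numerator
  have hnum : Eqv (fun n => DD n (fun v => ∏ i, hf (P i) (q i) v))
      (fun n => DD n S * DD n B * cexp (tn n S B)) := by
    have h1 := hM.1 S _ B g1 hW hBL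
    have e1 : (fun v => ∏ i, hf (P i) (q i) v) = fun v => S v * B v := by
      funext v
      simp only [hSd, hBd]
      rw [← Finset.prod_mul_distrib]
      exact Finset.prod_congr rfl fun i _ => (sf_bf hK hδ _ _ v).symm
    rw [e1]
    refine h1.congr fun n => ?_
    rw [Complex.exp_neg, ← div_eq_mul_inv, div_div]
  have htn : Tendsto (fun n => tn n S B -
      ∑ i, ∑ j, tn n (sf δ (P i) (q i)) (bf δ (P j) (q j))) atTop (𝓝 0) := by
    have h1 := tn_prod hO hL hM g1 hW hb Finset.univ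
    have h2 : Tendsto (fun n => ∑ j, (tn n S (bf δ (P j) (q j)) -
        ∑ i, tn n (sf δ (P i) (q i)) (bf δ (P j) (q j)))) atTop (𝓝 (∑ j : Fin k, 0)) :=
      tendsto_finsetSum _ fun j _ => g4 _ (hb j)
    rw [Finset.sum_const_zero] at h2
    have h3 := h1.add h2
    rw [add_zero] at h3
    refine h3.congr fun n => ?_
    rw [Finset.sum_sub_distrib, Finset.sum_comm (f := fun i j =>
      tn n (sf δ (P i) (q i)) (bf δ (P j) (q j)))]
    ring
  have hBB := DD_prod hO hL hM hb Finset.univ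
  have hnum2 := hnum.trans ((g3.mul hBB).mul (eqv_exp htn))
  -- denominator
  have hden : Eqv (fun n => ∏ i, DD n (hf (P i) (q i)))
      (fun n => ∏ i, (DD n (sf δ (P i) (q i)) * DD n (bf δ (P i) (q i)) *
        cexp (tn n (sf δ (P i) (q i)) (bf δ (P i) (q i))))) := by
    refine Eqv.prod _ fun i _ => ?_
    have h1 := hM.1 _ _ _ (hs i) hW (hb i)
    have e1 : hf (P i) (q i) = fun v => sf δ (P i) (q i) v * bf δ (P i) (q i) v := by
      funext v
      exact (sf_bf hK hδ _ _ v).symm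
    rw [e1]
    refine h1.congr fun n => ?_
    rw [Complex.exp_neg, ← div_eq_mul_inv, div_div]
  refine (hnum2.div hden).congr_right ?_
  have hnz : ∀ᶠ n : ℕ in atTop, ∀ i, DD n (sf δ (P i) (q i)) ≠ 0 ∧ DD n (bf δ (P i) (q i)) ≠ 0 :=
    (eventually_all (ι := Fin k)).2 fun i =>
      (hs i).2.2.2.1.and ((hM.2.2.1 _ (hb i)).2.2.2.1)
  filter_upwards [hnz] with n hn
  have n1 : ∏ i, DD n (sf δ (P i) (q i)) ≠ 0 := Finset.prod_ne_zero_iff.2 fun i _ => (hn i).1
  have n2 : ∏ i, DD n (bf δ (P i) (q i)) ≠ 0 := Finset.prod_ne_zero_iff.2 fun i _ => (hn i).2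
  rw [sum_split, Finset.prod_mul_distrib, Finset.prod_mul_distrib, ← Complex.exp_sum,
    Complex.exp_add]
  have e1 : ∑ i, ∑ j ∈ Finset.univ.filter (fun j => i < j), Lm n δ (P i) (P j) (q i) (q j) =
      ∑ i, ∑ j ∈ Finset.univ.filter (fun j => i < j), tn n (bf δ (P i) (q i)) (bf δ (P j) (q j)) +
      ∑ i, ∑ j ∈ Finset.univ.filter (fun j => i < j),
        (tn n (sf δ (P i) (q i)) (bf δ (P j) (q j)) + tn n (sf δ (P j) (q j)) (bf δ (P i) (q i))) := by
    rw [← Finset.sum_add_distrib]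
    refine Finset.sum_congr rfl fun i _ => ?_
    rw [← Finset.sum_add_distrib]
    refine Finset.sum_congr rfl fun j _ => ?_
    unfold Lm
    ring
  rw [e1, Complex.exp_add]
  have n3 := Complex.exp_ne_zero (∑ i, tn n (sf δ (P i) (q i)) (bf δ (P i) (q i)))
  field_simp

end Pool.Agent.P8H98.FM
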