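import Pool.Agent.P8H98.FM.Asm3

/-!
Project FM (helper98): ASM, the two point function and the conclusion.
-/

set_option autoImplicit false

open MeasureTheory Complex Filter Topology
open scoped ENNReal NNReal ComplexConjugate

namespace Pool.Agent.P8H98.FM

open Pool.Agent.R923.SE Pool.Agent.K7.H95.GMC

lemma good_sf (hK : S_KER) (hR : S_RAD) {δ : ℝ} (hδ : 0 < δ) (hδ1 : δ ≤ 1) {p : Om}
    (hp : nn2 p ≠ 0) {q : ℂ} (hq : -1 < q.re) : ∃ ω, Wt ω ∧ Good (sf δ p q) ω := by
  obtain ⟨κ, h1, h2⟩ := exists_between (show max 0 (-1 - 2 * q.re) < 1 from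
    max_lt one_pos (by linarith))
  have hκ : 0 < κ := lt_of_le_of_lt (le_max_left _ _) h1
  have hκ2 : -1 - 2 * q.re < κ := lt_of_le_of_lt (le_max_right _ _) h1
  refine ⟨fun v => d2 v p ^ (κ / 2), ?_, (hR.1 p δ q κ hp hδ hδ1 hq hκ h2 (by linarith)).1⟩
  have h3 := wt_Wt (k := 1) (P := fun _ => p) hK (fun _ => hp) hδ hδ1 hκ h2
    (fun v _ i j hij => absurd (Subsingleton.elim i j) hij)
  have e1 : (wt (k := 1) (fun _ => p) κ) = fun v => d2 v p ^ (κ / 2) := by
    funext v
    unfold wt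
    rw [Fin.prod_univ_one]
  rwa [e1] at h3

lemma hf_meas (hK : S_KER) (p : Om) (q : ℂ) : Measurable (hf p q) := by
  have h := d2_meas hK p
  have h2 : Measurable fun x : ℝ => ((x : ℝ) : ℂ) ^ q := by fun_prop
  exact h2.comp h

lemma hf_int (hK : S_KER) {p : Om} (hp : nn2 p ≠ 0) {q : ℂ} (hq : -1 < q.re) :
    Integrable (hf p q) sg := by
  refine (d2_integrable hK hp hq).mono' (hf_meas hK p q).aestronglyMeasurable ?_
  filter_upwards [d2_pos_ae hK hp] with v hv
  unfold hf
  rw [Complex.norm_cpow_eq_rpow_re_of_pos hv]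

lemma hf2_int (hK : S_KER) (hO : S_ONB) (hL : S_LIP) (hM : S_MUL) (hS : S_SEP) (hR : S_RAD)
    {δ : ℝ} {p p' : Om} (hp : nn2 p ≠ 0) (hp' : nn2 p' ≠ 0) (hδ : 0 < δ)
    (hδ1 : δ ≤ 1) (hsep : 16 * δ ≤ d2 p p') {q r : ℂ} (hq : -1 < q.re) (hr : -1 < r.re) :
    Integrable (fun v => hf p q v * hf p' r v) sg := by
  have h4 : max (-1 - 2 * q.re) (-1 - 2 * r.re) < 1 := max_lt (by linarith) (by linarith)
  obtain ⟨κ, h5, h6⟩ := exists_between (max_lt one_pos h4)
  have k0 : 0 < κ := lt_of_le_of_lt (le_max_left _ _) h5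
  have k3 := lt_of_le_of_lt (le_max_right 0 (max (-1 - 2 * q.re) (-1 - 2 * r.re))) h5
  have k1 := lt_of_le_of_lt (le_max_left (-1 - 2 * q.re) (-1 - 2 * r.re)) k3
  have k2 := lt_of_le_of_lt (le_max_right (-1 - 2 * q.re) (-1 - 2 * r.re)) k3
  have h := SQ_all (k := 2) hK hO hL hM hS hR (δ := δ) (κ := κ) (P := ![p, p']) (q := ![q, r])
    (by intro i; fin_cases i <;> assumption) hδ hδ1
    (by
      intro i j hij
      fin_cases i <;> fin_cases j
      · exact absurd rfl hij
      · exact hsep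
      · exact (d2_symm hK p p') ▸ hsep
      · exact absurd rfl hij) k0 h6
    (by intro i; fin_cases i <;> assumption)
    (by
      intro i
      fin_cases i
      · show -1 < 2 * q.re + κ
        linarith
      · show -1 < 2 * r.re + κ
        linarith) Finset.univ
  have hi := h.1.2.1
  simp only [Fin.prod_univ_two, Matrix.cons_val_zero, Matrix.cons_val_one] at hi
  have hb := hL.1 _ _ (bf_Lp hK hδ hδ1 q hp) (bf_Lp hK hδ hδ1 r hp')
  obtain ⟨c, C, hc, hC⟩ := hb.2.2
  refine (hi.norm.const_mul C).mono' ((hf_meas hK p q).mul (hf_meas hK p' r)).aestronglyMeasurable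
    (ae_of_all _ fun v => ?_)
  have e1 : hf p q v * hf p' r v = (bf δ p q v * bf δ p' r v) * (sf δ p q v * sf δ p' r v) := by
    rw [← sf_bf hK hδ, ← sf_bf hK hδ]
    ring
  rw [e1, norm_mul]
  exact mul_le_mul_of_nonneg_right (hC v).2 (norm_nonneg _)

section two

variable (hK : S_KER) (hO : S_ONB) (hL : S_LIP) (hM : S_MUL) (hS : S_SEP) (hR : S_RAD)
  (hTw : S_TWO) {δ : ℝ} {p p' : Om} (hp : nn2 p ≠ 0) (hp' : nn2 p' ≠ 0) (hδ : 0 < δ)
  (hδ1 : δ ≤ 1) (hsep : 16 * δ ≤ d2 p p')

include hK hM hR hp hp' hδ hδ1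

lemma Lm_add_left (hL : S_LIP) {q q' r : ℂ} (hq : -1 < q.re) (hq' : -1 < q'.re) (hqq : -1 < (q + q').re)
    (hr : -1 < r.re) : Tendsto (fun n => Lm n δ p p' (q + q') r - Lm n δ p p' q r -
      Lm n δ p p' q' r) atTop (𝓝 0) := by
  have hb : ∀ q, Lp (bf δ p q) := fun q => bf_Lp hK hδ hδ1 q hp
  have hb' : ∀ q, Lp (bf δ p' q) := fun q => bf_Lp hK hδ hδ1 q hp'
  obtain ⟨ω, hω, hg⟩ := good_sf hK hR hδ hδ1 hp' hr
  have h1 := hR.2 p δ q q' (bf δ p' r) hp hδ hδ1 hq hq' hqq (hb' r)
  have e1 : bf δ p (q + q') = fun v => bf δ p q v * bf δ p q' v := funext fun v => bc_add hδ _ _ _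
  have h2 := hM.2.1 _ ω _ _ hg hω (hb q) (hb q')
  have h3 := hM.2.1 (fun v => conj (bf δ p' r v)) _ _ _ (hM.2.2.1 _ (hL.2.1 _ (hb' r))) Wt_one
    (hL.2.1 _ (hb q)) (hL.2.1 _ (hb q'))
  have h4 := (Complex.continuous_conj.tendsto 0).comp h3
  rw [map_zero] at h4
  have h5 := (h1.add h2).add h4
  rw [add_zero, add_zero] at h5
  refine h5.congr fun n => ?_
  simp only [Function.comp, map_sub]
  have f1 : tn n (bf δ p (q + q')) (bf δ p' r) = conj (tn n (fun v => conj (bf δ p' r v))
      fun v => conj (bf δ p q v) * conj (bf δ p q' v)) := by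
    rw [hM.2.2.2 _ _ (hb _) (hb' r) n, e1]
    simp only [map_mul]
  unfold Lm
  rw [f1, hM.2.2.2 _ _ (hb q) (hb' r) n, hM.2.2.2 _ _ (hb q') (hb' r) n, e1]
  unfold sf
  ring

lemma Lm_add_right {q r r' : ℂ} (hq : -1 < q.re) (hr : -1 < r.re) (hr' : -1 < r'.re)
    (hrr : -1 < (r + r').re) : Tendsto (fun n => Lm n δ p p' q (r + r') - Lm n δ p p' q r -
      Lm n δ p p' q r') atTop (𝓝 0) := by
  have hb : ∀ q, Lp (bf δ p q) := fun q => bf_Lp hK hδ hδ1 q hp
  have hb' : ∀ q, Lp (bf δ p' q) := fun q => bf_Lp hK hδ hδ1 q hp'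
  obtain ⟨ω, hω, hg⟩ := good_sf hK hR hδ hδ1 hp hq
  have h1 := hR.2 p' δ r r' (bf δ p q) hp' hδ hδ1 hr hr' hrr (hb q)
  have e1 : bf δ p' (r + r') = fun v => bf δ p' r v * bf δ p' r' v :=
    funext fun v => bc_add hδ _ _ _
  have h2 := hM.2.1 _ ω _ _ hg hω (hb' r) (hb' r')
  have h3 := hM.2.1 _ _ _ _ (hM.2.2.1 _ (hb q)) Wt_one (hb' r) (hb' r')
  have h5 := (h1.add h2).add h3
  rw [add_zero, add_zero] at h5
  refine h5.congr fun n => ?_
  unfold Lm
  rw [e1]
  unfold sf
  ring

lemma Lm_zero_left (hL : S_LIP) {r : ℂ} (hr : -1 < r.re) :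
    Tendsto (fun n => Lm n δ p p' 0 r) atTop (𝓝 0) := by
  have h := Lm_add_left hK hM hR hp hp' hδ hδ1 hL (q := 0) (q' := 0) (r := r) (by simp)
    (by simp) (by simp) hr
  have h2 := h.neg
  rw [neg_zero] at h2
  refine h2.congr fun n => ?_
  rw [add_zero]
  ring

lemma Lm_zero_right {q : ℂ} (hq : -1 < q.re) :
    Tendsto (fun n => Lm n δ p p' q 0) atTop (𝓝 0) := by
  have h := Lm_add_right hK hM hR hp hp' hδ hδ1 (q := q) (r := 0) (r' := 0) hq (by simp)
    (by simp) (by simp)
  have h2 := h.neg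
  rw [neg_zero] at h2
  refine h2.congr fun n => ?_
  rw [add_zero]
  ring

lemma Lm_nat_left (hL : S_LIP) {q r : ℂ} (m : ℕ) (hq : -1 < (m : ℝ) * q.re) (hr : -1 < r.re) :
    Tendsto (fun n => Lm n δ p p' (m * q) r - m * Lm n δ p p' q r) atTop (𝓝 0) := by
  have key : ∀ j : ℕ, j ≤ m →
      Tendsto (fun n => Lm n δ p p' (j * q) r - j * Lm n δ p p' q r) atTop (𝓝 0) := by
    intro j
    induction j with
    | zero =>
      intro _
      have := Lm_zero_left hK hM hR hp hp' hδ hδ1 hL hr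
      simpa using this
    | succ j ih =>
      intro hj
      have hm0 : 0 < m := by omega
      have hre : ∀ i : ℕ, i ≤ m → -1 < ((i : ℂ) * q).re := by
        intro i hi
        have e1 : ((i : ℂ) * q).re = i * q.re := by simp
        rw [e1]
        rcases le_total 0 q.re with h | h
        · have : 0 ≤ (i : ℝ) * q.re := by positivity
          linarith
        · have h2 : (m : ℝ) * q.re ≤ i * q.re :=
            mul_le_mul_of_nonpos_right (by exact_mod_cast hi) h
          linarith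
      have h1 := Lm_add_left hK hM hR hp hp' hδ hδ1 hL (q := j * q) (q' := q) (r := r)
        (hre j (by omega)) (by simpa using hre 1 (by omega))
        (by have := hre (j + 1) hj; push_cast at this; rwa [add_mul, one_mul] at this) hr
      have h2 := h1.add (ih (by omega))
      rw [add_zero] at h2
      refine h2.congr fun n => ?_
      push_cast
      rw [add_mul, one_mul]
      ring
  exact key m le_rfl

lemma Lm_nat_right {q r : ℂ} (m : ℕ) (hq : -1 < q.re) (hr : -1 < (m : ℝ) * r.re) :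
    Tendsto (fun n => Lm n δ p p' q (m * r) - m * Lm n δ p p' q r) atTop (𝓝 0) := by
  have key : ∀ j : ℕ, j ≤ m →
      Tendsto (fun n => Lm n δ p p' q (j * r) - j * Lm n δ p p' q r) atTop (𝓝 0) := by
    intro j
    induction j with
    | zero =>
      intro _
      have := Lm_zero_right hK hM hR hp hp' hδ hδ1 hq
      simpa using this
    | succ j ih =>
      intro hj
      have hm0 : 0 < m := by omega
      have hre : ∀ i : ℕ, i ≤ m → -1 < ((i : ℂ) * r).re := by
        intro i hi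
        have e1 : ((i : ℂ) * r).re = i * r.re := by simp
        rw [e1]
        rcases le_total 0 r.re with h | h
        · have : 0 ≤ (i : ℝ) * r.re := by positivity
          linarith
        · have h2 : (m : ℝ) * r.re ≤ i * r.re :=
            mul_le_mul_of_nonpos_right (by exact_mod_cast hi) h
          linarith
      have h1 := Lm_add_right hK hM hR hp hp' hδ hδ1 (q := q) (r := j * r) (r' := r) hq
        (hre j (by omega)) (by simpa using hre 1 (by omega))
        (by have := hre (j + 1) hj; push_cast at this; rwa [add_mul, one_mul] at this)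
      have h2 := h1.add (ih (by omega))
      rw [add_zero] at h2
      refine h2.congr fun n => ?_
      push_cast
      rw [add_mul, one_mul]
      ring
  exact key m le_rfl

include hO hL hS hsep

/-- the two point function -/
lemma two_struct {q r : ℂ} (hq : -1 < q.re) (hr : -1 < r.re) :
    Eqv (fun n => DD n (fun v => hf p q v * hf p' r v) / (DD n (hf p q) * DD n (hf p' r)))
      (fun n => cexp (Lm n δ p p' q r)) := by
  have h := struct (k := 2) hK hO hL hM hS hR (δ := δ) (P := ![p, p']) (q := ![q, r])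
    (by intro i; fin_cases i <;> assumption) hδ hδ1
    (by
      intro i j hij
      fin_cases i <;> fin_cases j
      · exact absurd rfl hij
      · exact hsep
      · exact (d2_symm hK p p') ▸ hsep
      · exact absurd rfl hij)
    (by intro i; fin_cases i <;> assumption)
  simp only [Fin.prod_univ_two, Matrix.cons_val_zero, Matrix.cons_val_one] at h
  refine h.congr_right (Eventually.of_forall fun n => ?_)
  congr 1
  rw [Fin.sum_univ_two]
  have e1 : (Finset.univ.filter fun j : Fin 2 => (0 : Fin 2) < j) = {1} := by decide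
  have e2 : (Finset.univ.filter fun j : Fin 2 => (1 : Fin 2) < j) = ∅ := by decide
  rw [e1, e2]
  simp

/-- symmetry of the two point function -/
lemma two_symm {q r : ℂ} (hq : -1 < q.re) (hr : -1 < r.re) (n : ℕ) :
    DD n (fun v => hf p q v * hf p' r v) / (DD n (hf p q) * DD n (hf p' r)) =
    DD n (fun v => hf p r v * hf p' q v) / (DD n (hf p r) * DD n (hf p' q)) := by
  have h1 := hO.2.2 n p p' hp hp' (fun x => ((x.1 : ℝ) : ℂ) ^ q * ((x.2 : ℝ) : ℂ) ^ r)
    (by fun_prop) (hf2_int hK hO hL hM hS hR hp hp' hδ hδ1 hsep hq hr)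
  have h2 : ∀ s : ℂ, -1 < s.re → DD n (hf p s) = DD n (hf p' s) := fun s hs =>
    hO.2.2 n p p' hp hp' (fun x => ((x.1 : ℝ) : ℂ) ^ s) (by fun_prop) (hf_int hK hp hs)
  have e1 : (fun u => ((d2 u p' : ℝ) : ℂ) ^ q * ((d2 u p : ℝ) : ℂ) ^ r) =
      fun v => hf p r v * hf p' q v := by
    funext v
    unfold hf
    ring
  have e2 : DD n (fun v => hf p q v * hf p' r v) = DD n (fun v => hf p r v * hf p' q v) := by
    rw [← e1]
    exact h1
  rw [e2, h2 q hq, ← h2 r hr, mul_comm (DD n (hf p' q))]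

include hTw

/-- opposite charges -/
lemma two_opp {a : ℂ} (ha : |a.re| < 1) : Eqv (fun n => cexp (Lm n δ p p' a (-a)))
    (fun _ => cexp (a ^ 2 * ((1 + Real.log (d2 p p') : ℝ) : ℂ))) := by
  have hd : 0 < d2 p p' := lt_of_lt_of_le (by positivity) hsep
  have ha' := abs_lt.1 ha
  have h1 := two_struct hK hO hL hM hS hR hp hp' hδ hδ1 hsep (q := a) (r := -a) (by linarith)
    (by rw [Complex.neg_re]; linarith)
  exact h1.symm.trans (eqv_const (Complex.exp_ne_zero _) (hTw p p' hp hp' hd a ha))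

/-- the square of the two point function for small charges -/
lemma two_small {q r : ℂ} (hq : |q.re| < 1 / 2) (hr : |r.re| < 1 / 2) :
    Tendsto (fun n => cexp (2 * Lm n δ p p' q r)) atTop
      (𝓝 (cexp (-(2 * (q * r) * ((1 + Real.log (d2 p p') : ℝ) : ℂ))))) := by
  set c : ℂ := ((1 + Real.log (d2 p p') : ℝ) : ℂ) with hc
  have hq' := abs_lt.1 hq
  have hr' := abs_lt.1 hr
  have q1 : -1 < q.re := by linarith
  have q2 : -1 < (-q).re := by rw [Complex.neg_re]; linarith
  have r1 : -1 < r.re := by linarith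
  have r2 : -1 < (-r).re := by rw [Complex.neg_re]; linarith
  have s1 : -1 < (q + r).re := by rw [Complex.add_re]; linarith
  have s2 : -1 < (-q + -r).re := by simp only [Complex.add_re, Complex.neg_re]; linarith
  have t1 := Lm_add_left hK hM hR hp hp' hδ hδ1 hL (q := q) (q' := r) (r := -q + -r) q1 r1 s1 s2
  have t2 := Lm_add_right hK hM hR hp hp' hδ hδ1 (q := q) (r := -q) (r' := -r) q1 q2 r2 s2
  have t3 := Lm_add_right hK hM hR hp hp' hδ hδ1 (q := r) (r := -q) (r' := -r) r1 q2 r2 s2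
  have t4 := Lm_add_right hK hM hR hp hp' hδ hδ1 (q := q) (r := r) (r' := -r) q1 r1 r2 (by simp)
  have t5 := Lm_add_left hK hM hR hp hp' hδ hδ1 hL (q := q) (q' := -q) (r := r) q1 q2 (by simp) r1
  have z1 := Lm_zero_right hK hM hR hp hp' hδ hδ1 (q := q) q1
  have z2 := Lm_zero_left hK hM hR hp hp' hδ hδ1 hL (r := r) r1
  rw [show r + -r = 0 by ring] at t4
  rw [show q + -q = 0 by ring] at t5
  -- first relation
  have u1 : Tendsto (fun n => Lm n δ p p' (q + r) (-q + -r) - (Lm n δ p p' q (-q) +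
      Lm n δ p p' r (-r) - Lm n δ p p' q r + Lm n δ p p' r (-q))) atTop (𝓝 0) := by
    have h := ((t1.add t2).add t3).add (z1.sub t4)
    simp only [add_zero, sub_zero] at h
    refine h.congr fun n => ?_
    ring
  have u2 : Eqv (fun n => cexp (Lm n δ p p' r (-q))) (fun n => cexp (-Lm n δ p p' q r)) := by
    have h1 := two_struct hK hO hL hM hS hR hp hp' hδ hδ1 hsep (q := r) (r := -q) r1 q2
    have h2 := two_struct hK hO hL hM hS hR hp hp' hδ hδ1 hsep (q := -q) (r := r) q2 r1
    have h3 : Eqv (fun n => cexp (Lm n δ p p' r (-q))) (fun n => cexp (Lm n δ p p' (-q) r)) := by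
      refine h1.symm.trans (h2.congr_left (Eventually.of_forall fun n => ?_))
      exact two_symm hK hO hL hM hS hR hp hp' hδ hδ1 hsep q2 r1 n
    refine h3.trans (eqv_exp ?_)
    have h := z2.sub t5
    rw [sub_zero] at h
    refine h.congr fun n => ?_
    ring
  have v1 := two_opp hK hO hL hM hS hR hTw hp hp' hδ hδ1 hsep (a := q + r)
    (by rw [Complex.add_re, abs_lt]; constructor <;> linarith)
  have v2 := two_opp hK hO hL hM hS hR hTw hp hp' hδ hδ1 hsep (a := q)
    (by rw [abs_lt]; constructor <;> linarith)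
  have v3 := two_opp hK hO hL hM hS hR hTw hp hp' hδ hδ1 hsep (a := r)
    (by rw [abs_lt]; constructor <;> linarith)
  rw [show -(q + r) = -q + -r by ring] at v1
  have w1 : Eqv (fun n => cexp (Lm n δ p p' (q + r) (-q + -r)))
      (fun n => cexp (q ^ 2 * c) * cexp (r ^ 2 * c) * cexp (-Lm n δ p p' q r) *
        cexp (-Lm n δ p p' q r)) := by
    refine (eqv_exp u1).trans ?_
    have h0 : Eqv (fun n => cexp (-Lm n δ p p' q r)) (fun n => cexp (-Lm n δ p p' q r)) :=
      Eqv.refl_of (Eventually.of_forall fun _ => Complex.exp_ne_zero _)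
    refine (((v2.mul v3).mul h0).mul u2).congr_left (Eventually.of_forall fun n => ?_)
    rw [← Complex.exp_add, ← Complex.exp_add, ← Complex.exp_add]
    congr 1
  have w2 := v1.symm.trans w1
  -- solve
  have w3 : Eqv (fun n => cexp (2 * Lm n δ p p' q r))
      (fun _ => cexp (-(2 * (q * r) * c))) := by
    have h0 : Eqv (fun n => cexp (2 * Lm n δ p p' q r) / cexp ((q + r) ^ 2 * c))
        (fun n => cexp (2 * Lm n δ p p' q r) / cexp ((q + r) ^ 2 * c)) :=
      Eqv.refl_of (Eventually.of_forall fun _ =>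
        div_ne_zero (Complex.exp_ne_zero _) (Complex.exp_ne_zero _))
    have h1 := w2.mul h0
    refine (h1.congr_left (Eventually.of_forall fun n => ?_)).congr_right
      (Eventually.of_forall fun n => ?_)
    · have := Complex.exp_ne_zero ((q + r) ^ 2 * c)
      rw [← hc]
      field_simp
    · rw [← Complex.exp_sub, ← Complex.exp_add, ← Complex.exp_add, ← Complex.exp_add,
        ← Complex.exp_add]
      congr 1
      ring
  exact w3.tendsto tendsto_const_nhds

/-- **the two point function** -/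
theorem two_lim {q r : ℂ} (hq : -1 < q.re) (hr : -1 < r.re) :
    Tendsto (fun n => cexp (Lm n δ p p' q r)) atTop
      (𝓝 (cexp (-(q * r * ((1 + Real.log (d2 p p') : ℝ) : ℂ))))) := by
  set c : ℂ := ((1 + Real.log (d2 p p') : ℝ) : ℂ) with hc
  obtain ⟨m, hm⟩ := exists_nat_gt (2 * |q.re| + 2 * |r.re|)
  have hm0 : (0 : ℝ) < m := lt_of_le_of_lt (by positivity) hm
  have hmc : (m : ℂ) ≠ 0 := by
    have : m ≠ 0 := by
      rintro rfl
      simp at hm0
    exact_mod_cast this
  set q0 : ℂ := q / (2 * m) with hq0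
  set r0 : ℂ := r / m with hr0
  have eq0 : q0.re = q.re / (2 * m) := by
    rw [hq0, show (2 * (m : ℂ)) = ((2 * m : ℝ) : ℂ) by push_cast; ring, Complex.div_ofReal_re]
  have er0 : r0.re = r.re / m := by
    rw [hr0, show (m : ℂ) = ((m : ℝ) : ℂ) by push_cast; ring, Complex.div_ofReal_re]
  have hq0' : |q0.re| < 1 / 2 := by
    rw [eq0, abs_div, abs_of_pos (by positivity : (0 : ℝ) < 2 * m), div_lt_div_iff₀ (by positivity)
      (by norm_num)]
    have := abs_nonneg r.re
    have := abs_nonneg q.re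
    nlinarith
  have hr0' : |r0.re| < 1 / 2 := by
    rw [er0, abs_div, abs_of_pos hm0, div_lt_div_iff₀ hm0 (by norm_num)]
    have := abs_nonneg q.re
    linarith
  have e1 : ((2 * m : ℕ) : ℂ) * q0 = q := by
    rw [hq0]
    push_cast
    field_simp
  have e2 : (m : ℂ) * r0 = r := by
    rw [hr0]
    field_simp
  have hq1 : -1 < ((2 * m : ℕ) : ℝ) * q0.re := by
    rw [eq0]
    push_cast
    rw [mul_div_cancel₀ _ (by positivity)]
    exact hq
  have hr1 : -1 < (m : ℝ) * r0.re := by
    rw [er0, mul_div_cancel₀ _ hm0.ne']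
    exact hr
  have h1 := Lm_nat_left hK hM hR hp hp' hδ hδ1 hL (2 * m) hq1 hr
  have h2 := Lm_nat_right hK hM hR hp hp' hδ hδ1 m (q := q0)
    (by have := (abs_lt.1 hq0').1; linarith) hr1
  rw [e1] at h1
  rw [e2] at h2
  have h3 : Tendsto (fun n => Lm n δ p p' q r - (m ^ 2 : ℕ) * (2 * Lm n δ p p' q0 r0)) atTop
      (𝓝 0) := by
    have h := h1.add (h2.const_mul ((2 * m : ℕ) : ℂ))
    rw [mul_zero, add_zero] at h
    refine h.congr fun n => ?_
    push_cast
    ring
  have h4 := two_small hK hO hL hM hS hR hTw hp hp' hδ hδ1 hsep hq0' hr0'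
  have h5 := h4.pow (m ^ 2)
  refine (eqv_exp h3).tendsto ?_
  have e3 : ∀ z : ℂ, cexp ((m ^ 2 : ℕ) * z) = cexp z ^ (m ^ 2) := fun z => Complex.exp_nat_mul z _
  simp only [e3]
  have e4 : cexp (-(q * r * c)) = cexp (-(2 * (q0 * r0) * c)) ^ (m ^ 2) := by
    rw [← e3]
    congr 1
    rw [← e1, ← e2]
    push_cast
    ring
  rw [e4]
  exact h5

end two

/-- **ASM** -/
theorem asm (hK : S_KER) (hO : S_ONB) (hL : S_LIP) (hM : S_MUL) (hS : S_SEP) (hR : S_RAD)
    (hTw : S_TWO) : S_ASM := by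
  intro k P q hP hd hq
  -- the radius
  obtain ⟨δ, hδ, hδ1, hsep⟩ : ∃ δ : ℝ, 0 < δ ∧ δ ≤ 1 ∧ ∀ i j, i ≠ j → 16 * δ ≤ d2 (P i) (P j) := by
    have h1 : ∀ A : Finset (Fin k × Fin k), ∃ δ : ℝ, 0 < δ ∧ δ ≤ 1 ∧ ∀ x ∈ A, x.1 ≠ x.2 →
        16 * δ ≤ d2 (P x.1) (P x.2) := by
      intro A
      induction A using Finset.induction_on with
      | empty => exact ⟨1, one_pos, le_rfl, by simp⟩
      | insert x A hx ih =>
        obtain ⟨δ, h1, h2, h3⟩ := ih
        by_cases hx' : x.1 = x.2
        · refine ⟨δ, h1, h2, fun y hy hne => ?_⟩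
          rcases Finset.mem_insert.1 hy with h | h
          · exact absurd (h ▸ hx') hne
          · exact h3 y h hne
        · have h4 := hd _ _ hx'
          refine ⟨min δ (d2 (P x.1) (P x.2) / 16), lt_min h1 (by positivity),
            (min_le_left _ _).trans h2, fun y hy hne => ?_⟩
          rcases Finset.mem_insert.1 hy with h | h
          · rw [h]
            have := min_le_right δ (d2 (P x.1) (P x.2) / 16)
            linarith
          · have := min_le_left δ (d2 (P x.1) (P x.2) / 16)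
            linarith [h3 y h hne]
    obtain ⟨δ, h2, h3, h4⟩ := h1 Finset.univ
    exact ⟨δ, h2, h3, fun i j hij => h4 (i, j) (Finset.mem_univ _) hij⟩
  have h := struct hK hO hL hM hS hR hP hδ hδ1 hsep hq
  refine h.tendsto ?_
  have e1 : ∀ n, cexp (∑ i, ∑ j ∈ Finset.univ.filter (fun j => i < j),
      Lm n δ (P i) (P j) (q i) (q j)) = ∏ i, ∏ j ∈ Finset.univ.filter (fun j => i < j),
      cexp (Lm n δ (P i) (P j) (q i) (q j)) := by
    intro n
    rw [Complex.exp_sum]
    exact Finset.prod_congr rfl fun i _ => Complex.exp_sum _ _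
  have e2 : cexp (-∑ i, ∑ j ∈ Finset.univ.filter (fun j => i < j),
      q i * q j * ((1 + Real.log (d2 (P i) (P j)) : ℝ) : ℂ)) =
      ∏ i, ∏ j ∈ Finset.univ.filter (fun j => i < j),
        cexp (-(q i * q j * ((1 + Real.log (d2 (P i) (P j)) : ℝ) : ℂ))) := by
    rw [← Finset.sum_neg_distrib, Complex.exp_sum]
    refine Finset.prod_congr rfl fun i _ => ?_
    rw [← Finset.sum_neg_distrib, Complex.exp_sum]
  simp only [e1]
  rw [e2]
  refine tendsto_finsetProd _ fun i _ => tendsto_finsetProd _ fun j hj => ?_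
  have hij : i ≠ j := (Finset.mem_filter.1 hj).2.ne
  exact two_lim hK hO hL hM hS hR hTw (hP i) (hP j) hδ hδ1 (hsep i j hij) (hq i) (hq j)

end Pool.Agent.P8H98.FM
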