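import Pool.Agent.P8H98.FM.Stm2

/-!
Project FM (helper98): basic lemmas (squared norms, Cauchy–Schwarz, measurability).
-/

set_option autoImplicit false

open MeasureTheory Complex Filter Topology
open scoped ENNReal NNReal ComplexConjugate

namespace Pool.Agent.P8H98.FM

open Pool.Agent.R923.SE Pool.Agent.K7.H95.GMC

variable {n : ℕ}

lemma ns_nonneg (x : Fin n → ℂ) : 0 ≤ ns x := Finset.sum_nonneg fun _ _ => by positivity

lemma ns_eq_zero {x : Fin n → ℂ} (h : ns x = 0) : x = 0 := by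
  funext i
  have := (Finset.sum_eq_zero_iff_of_nonneg (fun i _ => by positivity)).1 h i (Finset.mem_univ i)
  simpa using this

lemma ns_smul (c : ℂ) (x : Fin n → ℂ) : ns (fun i => c * x i) = ‖c‖ ^ 2 * ns x := by
  unfold ns
  rw [Finset.mul_sum]
  exact Finset.sum_congr rfl fun i _ => by rw [norm_mul, mul_pow]

lemma ns_conj (x : Fin n → ℂ) : ns (fun i => conj (x i)) = ns x := by
  unfold ns
  simp

lemma ns_neg (x : Fin n → ℂ) : ns (-x) = ns x := by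
  unfold ns
  simp

/-- Cauchy–Schwarz for finite sums -/
lemma cs_sum (x y : Fin n → ℂ) : ‖∑ i, x i * y i‖ ^ 2 ≤ ns x * ns y := by
  have h1 : ‖∑ i, x i * y i‖ ≤ ∑ i, ‖x i‖ * ‖y i‖ :=
    (norm_sum_le _ _).trans (Finset.sum_le_sum fun i _ => (norm_mul _ _).le)
  have h2 := Finset.sum_mul_sq_le_sq_mul_sq Finset.univ (fun i => ‖x i‖) (fun i => ‖y i‖)
  exact (pow_le_pow_left₀ (norm_nonneg _) h1 2).trans h2

lemma ns_add_le (x y : Fin n → ℂ) : ns (x + y) ≤ 2 * ns x + 2 * ns y := by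
  unfold ns
  rw [Finset.mul_sum, Finset.mul_sum, ← Finset.sum_add_distrib]
  refine Finset.sum_le_sum fun i _ => ?_
  have h := norm_add_le (x i) (y i)
  have h2 : ‖(x + y) i‖ ^ 2 ≤ (‖x i‖ + ‖y i‖) ^ 2 := pow_le_pow_left₀ (norm_nonneg _) h 2
  nlinarith [sq_nonneg (‖x i‖ - ‖y i‖)]

lemma ns_sub_le (x y : Fin n → ℂ) : ns (x - y) ≤ 2 * ns x + 2 * ns y := by
  rw [sub_eq_add_neg]
  exact (ns_add_le _ _).trans (by rw [ns_neg])

lemma ns_add3_le (x y z : Fin n → ℂ) : ns (x + y + z) ≤ 3 * ns x + 3 * ns y + 3 * ns z := by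
  unfold ns
  rw [Finset.mul_sum, Finset.mul_sum, Finset.mul_sum, ← Finset.sum_add_distrib,
    ← Finset.sum_add_distrib]
  refine Finset.sum_le_sum fun i _ => ?_
  have h : ‖(x + y + z) i‖ ≤ ‖x i‖ + ‖y i‖ + ‖z i‖ := norm_add₃_le
  have h2 : ‖(x + y + z) i‖ ^ 2 ≤ (‖x i‖ + ‖y i‖ + ‖z i‖) ^ 2 := pow_le_pow_left₀ (norm_nonneg _) h 2
  nlinarith [sq_nonneg (‖x i‖ - ‖y i‖), sq_nonneg (‖x i‖ - ‖z i‖), sq_nonneg (‖y i‖ - ‖z i‖)]

/-- a bound for `A x` gives the same bound for `x A` -/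
lemma vecMul_bd {A : Matrix (Fin n) (Fin n) ℂ} {C : ℝ} (hC : ∀ x, ns (A.mulVec x) ≤ C * ns x)
    (x : Fin n → ℂ) : ns (fun l => ∑ i, x i * A i l) ≤ C * ns x := by
  set z : Fin n → ℂ := fun l => ∑ i, x i * A i l with hz
  rcases (ns_nonneg z).eq_or_lt with h0 | h0
  · rw [← h0]
    have h1 := hC x
    exact (ns_nonneg _).trans h1
  · have h1 : ((ns z : ℝ) : ℂ) = ∑ i, x i * (A.mulVec (fun l => conj (z l))) i := by
      have e1 : ((ns z : ℝ) : ℂ) = ∑ l, z l * conj (z l) := by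
        unfold ns
        push_cast
        exact Finset.sum_congr rfl fun l _ => (Complex.mul_conj' _).symm
      rw [e1]
      simp only [hz, Matrix.mulVec, dotProduct, Finset.mul_sum, Finset.sum_mul]
      rw [Finset.sum_comm]
      exact Finset.sum_congr rfl fun i _ => Finset.sum_congr rfl fun l _ => by ring
    have h2 := cs_sum x (A.mulVec (fun l => conj (z l)))
    rw [← h1, Complex.norm_real, Real.norm_of_nonneg h0.le] at h2
    have h3 := hC (fun l => conj (z l))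
    rw [ns_conj] at h3
    have h4 : ns z ^ 2 ≤ ns x * (C * ns z) := h2.trans (mul_le_mul_of_nonneg_left h3 (ns_nonneg _))
    have h5 : ns z * ns z ≤ (C * ns x) * ns z := by nlinarith
    exact le_of_mul_le_mul_right h5 h0

lemma mulVec_bd_mul {A B : Matrix (Fin n) (Fin n) ℂ} {C D : ℝ} (hC0 : 0 ≤ C)
    (hC : ∀ x, ns (A.mulVec x) ≤ C * ns x) (hD : ∀ x, ns (B.mulVec x) ≤ D * ns x) (x : Fin n → ℂ) :
    ns ((A * B).mulVec x) ≤ C * D * ns x := by
  rw [← Matrix.mulVec_mulVec, mul_assoc]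
  exact (hC _).trans (mul_le_mul_of_nonneg_left (hD x) hC0)

/-- Cauchy–Schwarz for integrals of nonnegative functions -/
lemma cs_int {f g : Om → ℝ} (hf0 : ∀ v, 0 ≤ f v) (hg0 : ∀ v, 0 ≤ g v)
    (hf : AEStronglyMeasurable f sg) (hg : AEStronglyMeasurable g sg)
    (hf2 : Integrable (fun v => f v ^ 2) sg) (hg2 : Integrable (fun v => g v ^ 2) sg) :
    Integrable (fun v => f v * g v) sg ∧
      (∫ v, f v * g v ∂sg) ^ 2 ≤ (∫ v, f v ^ 2 ∂sg) * ∫ v, g v ^ 2 ∂sg := by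
  have h1 : MemLp f 2 sg := (memLp_two_iff_integrable_sq hf).2 hf2
  have h2 : MemLp g 2 sg := (memLp_two_iff_integrable_sq hg).2 hg2
  refine ⟨h1.integrable_mul h2, ?_⟩
  have h := integral_mul_le_Lp_mul_Lq_of_nonneg (μ := sg) Real.HolderConjugate.two_two
    (f := f) (g := g) (ae_of_all _ hf0) (ae_of_all _ hg0) (by simpa using h1) (by simpa using h2)
  have h3 : 0 ≤ ∫ v, f v * g v ∂sg := integral_nonneg fun v => mul_nonneg (hf0 v) (hg0 v)
  have hF : 0 ≤ ∫ v, f v ^ 2 ∂sg := integral_nonneg fun v => by positivity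
  have hG : 0 ≤ ∫ v, g v ^ 2 ∂sg := integral_nonneg fun v => by positivity
  simp only [Real.rpow_two] at h
  rw [← Real.sqrt_eq_rpow, ← Real.sqrt_eq_rpow] at h
  calc (∫ v, f v * g v ∂sg) ^ 2 ≤ (√(∫ v, f v ^ 2 ∂sg) * √(∫ v, g v ^ 2 ∂sg)) ^ 2 :=
        pow_le_pow_left₀ h3 h 2
    _ = _ := by rw [mul_pow, Real.sq_sqrt hF, Real.sq_sqrt hG]

end Pool.Agent.P8H98.FM
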