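import Pool.Agent.P8H98.FM.Bas

/-!
Project FM (helper98): MUL, multiplicativity of the determinants.
-/

set_option autoImplicit false

open MeasureTheory Complex Filter Topology
open scoped ENNReal NNReal ComplexConjugate

namespace Pool.Agent.P8H98.FM

open Pool.Agent.R923.SE Pool.Agent.K7.H95.GMC

variable {n : ℕ}

lemma ph_meas (hK : S_KER) (j : Fin n) : Measurable fun v => ph n v j := hK.2.2.2.1 n j

lemma ae_nn2 (hK : S_KER) : ∀ᵐ v ∂sg, nn2 v ≠ 0 := hK.2.2.2.2.1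

lemma ns_ph (hK : S_KER) {v : Om} (hv : nn2 v ≠ 0) : ns (ph n v) = n := hK.2.2.1 n v hv

lemma xf_eq (a : Om → ℂ) (v : Om) (i : Fin n) :
    xf n a v i = a v * (∑ l, (TT n a)⁻¹ i l * ph n v l) - ph n v i := by
  unfold xf
  simp only [Matrix.mulVec, dotProduct, Finset.mul_sum]
  congr 1
  exact Finset.sum_congr rfl fun l _ => by ring

lemma xf_meas (hK : S_KER) {a : Om → ℂ} (ha : Measurable a) (i : Fin n) :
    Measurable fun v => xf n a v i := by
  simp only [xf_eq]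
  exact (ha.mul (Finset.measurable_sum _ fun l _ => (ph_meas hK l).const_mul _)).sub (ph_meas hK i)

lemma yf_meas (hK : S_KER) {b : Om → ℂ} (hb : Measurable b) (l : Fin n) :
    Measurable fun v => yf n b v l := by
  unfold yf
  have hc : ∀ i : Fin n, Measurable fun v => conj (ph n v i) := fun i =>
    Complex.continuous_conj.measurable.comp (ph_meas hK i)
  exact (Finset.measurable_sum _ fun i _ => (hb.mul (hc i)).mul_const _).sub (hc l)

lemma sum_xf (a : Om → ℂ) (v : Om) (e : Fin n → ℂ) : ∑ i, e i * xf n a v i =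
    a v * (∑ l, (∑ i, e i * (TT n a)⁻¹ i l) * ph n v l) - ∑ i, e i * ph n v i := by
  simp only [xf_eq, mul_sub, Finset.sum_sub_distrib]
  congr 1
  simp only [Finset.mul_sum, Finset.sum_mul]
  rw [Finset.sum_comm]
  exact Finset.sum_congr rfl fun i _ => Finset.sum_congr rfl fun l _ => by ring

lemma sum_xf_sq (hK : S_KER) (a : Om → ℂ) (e : Fin n → ℂ) : ∃ D : ℝ, 0 ≤ D ∧ ∀ v, nn2 v ≠ 0 →
    ‖∑ i, e i * xf n a v i‖ ^ 2 ≤ D * (1 + ‖a v‖ ^ 2) := by
  set f : Fin n → ℂ := fun l => ∑ i, e i * (TT n a)⁻¹ i l with hf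
  refine ⟨2 * (ns f * n) + 2 * (ns e * n), by
    have := ns_nonneg f; have := ns_nonneg e; positivity, fun v hv => ?_⟩
  rw [sum_xf]
  have h1 := cs_sum f (ph n v)
  have h2 := cs_sum e (ph n v)
  rw [ns_ph hK hv] at h1 h2
  set P := ∑ l, f l * ph n v l with hP
  set Q := ∑ i, e i * ph n v i with hQ
  have h3 : ‖a v * P - Q‖ ^ 2 ≤ 2 * (‖a v‖ ^ 2 * ‖P‖ ^ 2) + 2 * ‖Q‖ ^ 2 := by
    have h4 : ‖a v * P - Q‖ ≤ ‖a v‖ * ‖P‖ + ‖Q‖ := (norm_sub_le _ _).trans (by rw [norm_mul])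
    have h5 : ‖a v * P - Q‖ ^ 2 ≤ (‖a v‖ * ‖P‖ + ‖Q‖) ^ 2 := pow_le_pow_left₀ (norm_nonneg _) h4 2
    nlinarith [sq_nonneg (‖a v‖ * ‖P‖ - ‖Q‖)]
  have h6 : ‖a v‖ ^ 2 * ‖P‖ ^ 2 ≤ ‖a v‖ ^ 2 * (ns f * n) := by gcongr
  have h7 := ns_nonneg f
  have h8 := ns_nonneg e
  have h9 : 0 ≤ ns e * (n : ℝ) * ‖a v‖ ^ 2 := by positivity
  have h10 : 0 ≤ ns f * (n : ℝ) := by positivity
  nlinarith

/-- integrability of the weighted square -/
lemma int_xf (hK : S_KER) {a : Om → ℂ} {ω : Om → ℝ} (hω : Measurable ω)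
    (hω1 : ∀ v, 0 ≤ ω v ∧ ω v ≤ 1) (ha : Measurable a)
    (ha2 : Integrable (fun v => ω v ^ 2 * ‖a v‖ ^ 2) sg) (e : Fin n → ℂ) :
    Integrable (fun v => ω v ^ 2 * ‖∑ i, e i * xf n a v i‖ ^ 2) sg := by
  obtain ⟨D, hD, h⟩ := sum_xf_sq hK a e
  refine Integrable.mono' (g := fun v => D * (1 + ω v ^ 2 * ‖a v‖ ^ 2))
    (((integrable_const (1 : ℝ)).add ha2).const_mul D) ?_ ?_
  · exact ((hω.pow_const 2).mul ((Finset.measurable_sum _ fun i _ =>
      (xf_meas hK ha i).const_mul _).norm.pow_const 2)).aestronglyMeasurable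
  · filter_upwards [ae_nn2 hK] with v hv
    rw [Real.norm_of_nonneg (by positivity)]
    have h1 := h v hv
    have h2 : ω v ^ 2 ≤ 1 := pow_le_one₀ (hω1 v).1 (hω1 v).2
    have h3 : 0 ≤ ω v ^ 2 := by positivity
    calc ω v ^ 2 * ‖∑ i, e i * xf n a v i‖ ^ 2 ≤ ω v ^ 2 * (D * (1 + ‖a v‖ ^ 2)) := by gcongr
      _ = D * (ω v ^ 2 + ω v ^ 2 * ‖a v‖ ^ 2) := by ring
      _ ≤ _ := by gcongr

/-- pairing of the fields -/
lemma pair_le (hK : S_KER) {a : Om → ℂ} {ω : Om → ℝ} (hω : Wt ω) (ha : Measurable a)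
    (ha2 : Integrable (fun v => ω v ^ 2 * ‖a v‖ ^ 2) sg) (e : Fin n → ℂ) {y : Om → ℂ}
    (hy : Measurable y) {C : ℝ} (hyC : ∀ v, nn2 v ≠ 0 → ‖y v‖ ^ 2 ≤ C) :
    Integrable (fun v => (∑ i, e i * xf n a v i) * y v) sg ∧
    ‖∫ v, (∑ i, e i * xf n a v i) * y v ∂sg‖ ^ 2 ≤
      (∫ v, ω v ^ 2 * ‖∑ i, e i * xf n a v i‖ ^ 2 ∂sg) * (C * ∫ v, (ω v ^ 2)⁻¹ ∂sg) := by
  obtain ⟨hω1, hω2, hω3, hω4⟩ := hω
  have hX : Measurable fun v => ∑ i, e i * xf n a v i :=
    Finset.measurable_sum _ fun i _ => (xf_meas hK ha i).const_mul _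
  set X : Om → ℂ := fun v => ∑ i, e i * xf n a v i with hXd
  have hf2 : Integrable (fun v => (ω v * ‖X v‖) ^ 2) sg := by
    refine (int_xf hK hω1 hω2 ha ha2 e).congr (ae_of_all _ fun v => ?_)
    simp only [hXd]; ring
  have hg2 : Integrable (fun v => ((ω v)⁻¹ * ‖y v‖) ^ 2) sg := by
    refine Integrable.mono' (hω4.const_mul C)
      ((hω1.inv.mul hy.norm).pow_const 2).aestronglyMeasurable ?_
    filter_upwards [ae_nn2 hK] with v hv
    rw [Real.norm_of_nonneg (by positivity), mul_pow, inv_pow, mul_comm C]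
    exact mul_le_mul_of_nonneg_left (hyC v hv) (by positivity)
  obtain ⟨h1, h2⟩ := cs_int (f := fun v => ω v * ‖X v‖) (g := fun v => (ω v)⁻¹ * ‖y v‖)
    (fun v => mul_nonneg (hω2 v).1 (norm_nonneg _))
    (fun v => mul_nonneg (inv_nonneg.2 (hω2 v).1) (norm_nonneg _))
    (hω1.mul hX.norm).aestronglyMeasurable (hω1.inv.mul hy.norm).aestronglyMeasurable hf2 hg2
  have h3 : (fun v => ω v * ‖X v‖ * ((ω v)⁻¹ * ‖y v‖)) =ᵐ[sg] fun v => ‖X v * y v‖ := by
    filter_upwards [hω3] with v hv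
    rw [norm_mul]
    field_simp
  have h4 : Integrable (fun v => X v * y v) sg := by
    have h5 : Integrable (fun v => ‖X v * y v‖) sg := h1.congr h3
    exact (integrable_norm_iff (hX.mul hy).aestronglyMeasurable).1 h5
  refine ⟨h4, ?_⟩
  have h6 : ‖∫ v, X v * y v ∂sg‖ ≤ ∫ v, ‖X v * y v‖ ∂sg := norm_integral_le_integral_norm _
  have h7 : ∫ v, ω v * ‖X v‖ * ((ω v)⁻¹ * ‖y v‖) ∂sg = ∫ v, ‖X v * y v‖ ∂sg := integral_congr_ae h3
  have h8 : ∫ v, ((ω v)⁻¹ * ‖y v‖) ^ 2 ∂sg ≤ C * ∫ v, (ω v ^ 2)⁻¹ ∂sg := by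
    rw [← integral_const_mul]
    refine integral_mono_ae hg2 (hω4.const_mul C) ?_
    filter_upwards [ae_nn2 hK] with v hv
    rw [mul_pow, inv_pow, mul_comm C]
    exact mul_le_mul_of_nonneg_left (hyC v hv) (by positivity)
  have h9 : ∫ v, (ω v * ‖X v‖) ^ 2 ∂sg = ∫ v, ω v ^ 2 * ‖X v‖ ^ 2 ∂sg :=
    integral_congr_ae (ae_of_all _ fun v => by ring)
  have h10 : 0 ≤ ∫ v, ω v ^ 2 * ‖X v‖ ^ 2 ∂sg := integral_nonneg fun v => by positivity
  calc ‖∫ v, X v * y v ∂sg‖ ^ 2 ≤ (∫ v, ‖X v * y v‖ ∂sg) ^ 2 :=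
        pow_le_pow_left₀ (norm_nonneg _) h6 2
    _ ≤ _ := by
      rw [← h7]
      refine h2.trans ?_
      rw [h9]
      exact mul_le_mul_of_nonneg_left h8 h10

/-- the error matrix is small in the Hilbert–Schmidt norm -/
lemma hs_small (hK : S_KER) (hT : S_TRC) {a b : Om → ℂ} {ω : Om → ℝ} (hω : Wt ω)
    (ha : Measurable a) (hai : Integrable a sg)
    (ha2 : Integrable (fun v => ω v ^ 2 * ‖a v‖ ^ 2) sg) (hb : Lp b) (hda : (TT n a).det ≠ 0)
    (hdb : (TT n b).det ≠ 0) {ε C : ℝ} (hn : 0 < n)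
    (hε : ∀ e : Fin n → ℂ, ∫ v, ω v ^ 2 * ‖∑ i, e i * xf n a v i‖ ^ 2 ∂sg ≤ ε * ns e)
    (hy : ∀ v, nn2 v ≠ 0 → ns (yf n b v) ≤ C) :
    ∑ i, ∑ l, ‖((TT n a)⁻¹ * TT n (fun v => a v * b v) * (TT n b)⁻¹ - 1) i l‖ ^ 2 ≤
      ε * (C * ∫ v, (ω v ^ 2)⁻¹ ∂sg) := by
  obtain ⟨hω1, hω2, hω3, hω4⟩ := hω
  obtain ⟨hk, -, -⟩ := hT n a b ha hai hb hda hdb
  set K := (TT n a)⁻¹ * TT n (fun v => a v * b v) * (TT n b)⁻¹ - 1 with hKd
  rw [Finset.sum_comm]
  -- one column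
  have hyi : ∀ l, Integrable (fun v => (ω v ^ 2)⁻¹ * ‖yf n b v l‖ ^ 2) sg := by
    intro l
    refine Integrable.mono' (hω4.const_mul C) (((hω1.pow_const 2).inv.mul
      ((yf_meas hK hb.1 l).norm.pow_const 2))).aestronglyMeasurable ?_
    filter_upwards [ae_nn2 hK] with v hv
    rw [Real.norm_of_nonneg (by positivity), mul_comm C]
    refine mul_le_mul_of_nonneg_left ?_ (by positivity)
    exact (Finset.single_le_sum (f := fun l => ‖yf n b v l‖ ^ 2) (fun i _ => by positivity)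
      (Finset.mem_univ l)).trans (hy v hv)
  have hcol : ∀ l, ∑ i, ‖K i l‖ ^ 2 ≤ ε * ∫ v, (ω v ^ 2)⁻¹ * ‖yf n b v l‖ ^ 2 ∂sg := by
    intro l
    set k : Fin n → ℂ := fun i => K i l with hkd
    have h0 : ∑ i, ‖K i l‖ ^ 2 = ns k := rfl
    rw [h0]
    set e : Fin n → ℂ := fun i => conj (k i) with he
    have hX : Measurable fun v => ∑ i, e i * xf n a v i :=
      Finset.measurable_sum _ fun i _ => (xf_meas hK ha i).const_mul _
    set X : Om → ℂ := fun v => ∑ i, e i * xf n a v i with hXd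
    have hf2 : Integrable (fun v => (ω v * ‖X v‖) ^ 2) sg := by
      refine (int_xf hK hω1 hω2 ha ha2 e).congr (ae_of_all _ fun v => ?_)
      simp only [hXd]; ring
    have hg2 : Integrable (fun v => ((ω v)⁻¹ * ‖yf n b v l‖) ^ 2) sg := by
      refine (hyi l).congr (ae_of_all _ fun v => ?_)
      simp only [mul_pow, inv_pow]
    obtain ⟨h1, h2⟩ := cs_int (f := fun v => ω v * ‖X v‖) (g := fun v => (ω v)⁻¹ * ‖yf n b v l‖)
      (fun v => mul_nonneg (hω2 v).1 (norm_nonneg _))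
      (fun v => mul_nonneg (inv_nonneg.2 (hω2 v).1) (norm_nonneg _))
      (hω1.mul hX.norm).aestronglyMeasurable
      (hω1.inv.mul (yf_meas hK hb.1 l).norm).aestronglyMeasurable hf2 hg2
    have h3 : (fun v => ω v * ‖X v‖ * ((ω v)⁻¹ * ‖yf n b v l‖)) =ᵐ[sg]
        fun v => ‖X v * yf n b v l‖ := by
      filter_upwards [hω3] with v hv
      rw [norm_mul]
      field_simp
    have hi : ∀ i, Integrable (fun v => e i * (xf n a v i * yf n b v l)) sg := by
      intro i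
      have h5 := (pair_le hK ⟨hω1, hω2, hω3, hω4⟩ ha ha2 (Pi.single i (1 : ℂ))
        (yf_meas hK hb.1 l) (C := C) (fun v hv => (Finset.single_le_sum
          (f := fun l => ‖yf n b v l‖ ^ 2) (fun i _ => by positivity)
          (Finset.mem_univ l)).trans (hy v hv))).1
      have h6 : ∀ v, ∑ j, (Pi.single i (1 : ℂ) : Fin n → ℂ) j * xf n a v j = xf n a v i := by
        intro v
        rw [Finset.sum_eq_single i]
        · simp
        · intro j _ hj
          simp [Pi.single_eq_of_ne hj]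
        · simp
      simp only [h6] at h5
      exact h5.const_mul _
    have h4 : ((ns k : ℝ) : ℂ) = ∫ v, X v * yf n b v l ∂sg := by
      have e1 : ((ns k : ℝ) : ℂ) = ∑ i, e i * K i l := by
        unfold ns
        push_cast
        exact Finset.sum_congr rfl fun i _ => (Complex.conj_mul' _).symm
      have e2 : ∀ v, X v * yf n b v l = ∑ i, e i * (xf n a v i * yf n b v l) := by
        intro v
        simp only [hXd, Finset.sum_mul]
        exact Finset.sum_congr rfl fun i _ => by ring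
      rw [e1]
      simp only [e2]
      rw [integral_finsetSum _ fun i _ => hi i]
      refine Finset.sum_congr rfl fun i _ => ?_
      rw [integral_const_mul, hk i l]
    have h6 : ns k ≤ ∫ v, ‖X v * yf n b v l‖ ∂sg := by
      have h7 := norm_integral_le_integral_norm (μ := sg) (fun v => X v * yf n b v l)
      rw [← h4, Complex.norm_real, Real.norm_of_nonneg (ns_nonneg k)] at h7
      exact h7
    have h7 : ∫ v, ω v * ‖X v‖ * ((ω v)⁻¹ * ‖yf n b v l‖) ∂sg = ∫ v, ‖X v * yf n b v l‖ ∂sg :=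
      integral_congr_ae h3
    have h9 : ∫ v, (ω v * ‖X v‖) ^ 2 ∂sg ≤ ε * ns k := by
      have h10 : ∫ v, (ω v * ‖X v‖) ^ 2 ∂sg = ∫ v, ω v ^ 2 * ‖X v‖ ^ 2 ∂sg :=
        integral_congr_ae (ae_of_all _ fun v => by ring)
      rw [h10]
      have := hε e
      rwa [ns_conj k] at this
    have h10 : ∫ v, ((ω v)⁻¹ * ‖yf n b v l‖) ^ 2 ∂sg =
        ∫ v, (ω v ^ 2)⁻¹ * ‖yf n b v l‖ ^ 2 ∂sg :=
      integral_congr_ae (ae_of_all _ fun v => by simp only [mul_pow, inv_pow])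
    have h11 : 0 ≤ ∫ v, (ω v ^ 2)⁻¹ * ‖yf n b v l‖ ^ 2 ∂sg :=
      integral_nonneg fun v => by positivity
    rcases (ns_nonneg k).eq_or_lt with h0 | h0
    · have h12 := (integral_nonneg fun v => by positivity : 0 ≤ ∫ v, (ω v * ‖X v‖) ^ 2 ∂sg)
      rw [← h0] at h9 ⊢
      -- `ε` may be negative only if everything vanishes
      have h13 : 0 ≤ ε ∨ ε < 0 := le_or_gt 0 ε
      rcases h13 with h13 | h13
      · positivity
      · -- all the fields vanish
        exfalso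
        have h14 := hε (fun _ => 1)
        have h15 : 0 ≤ ∫ v, ω v ^ 2 * ‖∑ i, (fun _ : Fin n => (1 : ℂ)) i * xf n a v i‖ ^ 2 ∂sg :=
          integral_nonneg fun v => by positivity
        have h16 : 0 < ns (fun _ : Fin n => (1 : ℂ)) := by
          unfold ns
          simp only [norm_one, one_pow, Finset.sum_const, Finset.card_univ, Fintype.card_fin,
            nsmul_eq_mul, mul_one]
          have : 0 < n := l.pos
          exact_mod_cast this
        nlinarith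
    · rw [h7, h10] at h2
      have h12 : ns k ^ 2 ≤ (ε * ns k) * ∫ v, (ω v ^ 2)⁻¹ * ‖yf n b v l‖ ^ 2 ∂sg :=
        (pow_le_pow_left₀ h0.le h6 2).trans (h2.trans (mul_le_mul_of_nonneg_right h9 h11))
      have h13 : ns k * ns k ≤ (ε * ∫ v, (ω v ^ 2)⁻¹ * ‖yf n b v l‖ ^ 2 ∂sg) * ns k := by
        nlinarith
      exact le_of_mul_le_mul_right h13 h0
  have hε0 : 0 ≤ ε := by
    by_contra hcon
    push Not at hcon
    have h14 := hε (fun _ => 1)
    have h15 : 0 ≤ ∫ v, ω v ^ 2 * ‖∑ i, (fun _ : Fin n => (1 : ℂ)) i * xf n a v i‖ ^ 2 ∂sg :=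
      integral_nonneg fun v => by positivity
    have h16 : 0 < ns (fun _ : Fin n => (1 : ℂ)) := by
      unfold ns
      simp only [norm_one, one_pow, Finset.sum_const, Finset.card_univ, Fintype.card_fin,
        nsmul_eq_mul, mul_one]
      exact_mod_cast hn
    nlinarith
  refine (Finset.sum_le_sum fun l _ => hcol l).trans ?_
  rw [← Finset.mul_sum]
  refine mul_le_mul_of_nonneg_left ?_ hε0
  rw [← integral_finsetSum _ fun l _ => hyi l, ← integral_const_mul]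
  refine integral_mono_ae (integrable_finsetSum _ fun l _ => hyi l) (hω4.const_mul C) ?_
  filter_upwards [ae_nn2 hK] with v hv
  rw [← Finset.mul_sum, mul_comm C]
  exact mul_le_mul_of_nonneg_left (hy v hv) (by positivity)

end Pool.Agent.P8H98.FM
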