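import Pool.Agent.P8H98.FM.Mul

/-!
Project FM (helper98): MUL, first part.
-/

set_option autoImplicit false

open MeasureTheory Complex Filter Topology
open scoped ENNReal NNReal ComplexConjugate

namespace Pool.Agent.P8H98.FM

open Pool.Agent.R923.SE Pool.Agent.K7.H95.GMC

/-- multiplicativity of the determinants -/
theorem mul_first (hK : S_KER) (hA : S_LA) (hT : S_TRC) (hL : S_LIP) (a : Om → ℂ) (ω : Om → ℝ)
    (b : Om → ℂ) (hg : Good a ω) (hω : Wt ω) (hb : Lp b) :
    Tendsto (fun n => DD n (fun v => a v * b v) / (DD n a * DD n b) * cexp (-tn n a b)) atTop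
      (𝓝 1) := by
  obtain ⟨ha, hai, ha2, hda, ε, hε, hsm⟩ := hg
  obtain ⟨C, hC⟩ := hL.2.2 b hb
  set I : ℝ := ∫ v, (ω v ^ 2)⁻¹ ∂sg with hI
  have h0 : Tendsto (fun n => ε n * (C * I)) atTop (𝓝 0) := by
    simpa using hε.mul_const (C * I)
  have h1 : ∀ᶠ n in atTop, ∃ e : ℂ, ‖e‖ ≤ ε n * (C * I) ∧
      DD n (fun v => a v * b v) / (DD n a * DD n b) * cexp (-tn n a b) = cexp e := by
    filter_upwards [hda, hC, hsm, eventually_gt_atTop 0, h0.eventually (gt_mem_nhds
      (show (0 : ℝ) < 1 / 4 by norm_num))] with n g1 g2 g3 g4 g5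
    obtain ⟨g6, -, g7⟩ := g2
    have h2 := hs_small hK hT hω ha hai ha2 hb g1 g6 g4 g3 g7
    set K := (TT n a)⁻¹ * TT n (fun v => a v * b v) * (TT n b)⁻¹ - 1 with hKd
    obtain ⟨e, he, hdet⟩ := hA n K (h2.trans g5.le)
    refine ⟨e, he.trans h2, ?_⟩
    have e1 : (1 + K).det = DD n (fun v => a v * b v) / (DD n a * DD n b) := by
      rw [hKd, add_sub_cancel, Matrix.det_mul, Matrix.det_mul, Matrix.det_nonsing_inv,
        Matrix.det_nonsing_inv, Ring.inverse_eq_inv']
      unfold DD
      field_simp
    have e2 : K.trace = tn n a b := by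
      rw [hKd, Matrix.trace_sub, Matrix.trace_one, Fintype.card_fin]
      rfl
    rw [← e1, hdet, e2, ← Complex.exp_add]
    congr 1
    ring
  choose! e he1 he2 using fun n (h : ∃ e : ℂ, ‖e‖ ≤ ε n * (C * I) ∧
      DD n (fun v => a v * b v) / (DD n a * DD n b) * cexp (-tn n a b) = cexp e) => h
  have h3 : Tendsto e atTop (𝓝 0) := by
    refine squeeze_zero_norm' ?_ h0
    filter_upwards [h1] with n hn using he1 n hn
  have h4 : Tendsto (fun n => cexp (e n)) atTop (𝓝 1) := by
    have := (Complex.continuous_exp.tendsto 0).comp h3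
    simpa [Function.comp_def] using this
  refine h4.congr' ?_
  filter_upwards [h1] with n hn using (he2 n hn).symm

lemma TT_conj (n : ℕ) (h : Om → ℂ) : TT n (fun v => conj (h v)) = (TT n h).conjTranspose := by
  ext i j
  rw [Matrix.conjTranspose_apply]
  unfold TT
  simp only [Matrix.of_apply]
  rw [Complex.star_def, ← integral_conj]
  refine integral_congr_ae (ae_of_all _ fun v => ?_)
  simp only [map_mul, Complex.conj_conj]
  ring

/-- symmetry of the trace functional -/
theorem mul_four (a b : Om → ℂ) (n : ℕ) :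
    tn n a b = conj (tn n (fun v => conj (b v)) (fun v => conj (a v))) := by
  unfold tn
  have h1 : (fun v => conj (b v) * conj (a v)) = fun v => conj (a v * b v) := by
    funext v
    rw [map_mul, mul_comm]
  rw [h1, TT_conj, TT_conj, TT_conj, map_sub, Complex.conj_natCast]
  congr 1
  rw [← Complex.star_def, ← Matrix.trace_conjTranspose, Matrix.conjTranspose_mul,
    Matrix.conjTranspose_mul, Matrix.conjTranspose_nonsing_inv, Matrix.conjTranspose_nonsing_inv,
    Matrix.conjTranspose_conjTranspose, Matrix.conjTranspose_conjTranspose,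
    Matrix.conjTranspose_conjTranspose, Matrix.mul_assoc]

/-- Lipschitz symbols are good -/
theorem mul_three (hL : S_LIP) (hL2 : S_LIP2) (a : Om → ℂ) (ha : Lp a) :
    Good a (fun _ => 1) := by
  obtain ⟨c, C0, hc, hC0⟩ := ha.2.2
  have hai : Integrable a sg := by
    refine Integrable.mono' (integrable_const C0) ha.1.aestronglyMeasurable ?_
    exact ae_of_all _ fun v => (hC0 v).2
  have hCn : 0 ≤ C0 := hc.le.trans ((hC0 0).1.trans (hC0 0).2)
  obtain ⟨C, hC⟩ := hL.2.2 a ha
  obtain ⟨D, hD0, hD⟩ := hL2.2.1 (fun v => conj (a v)) (hL.2.1 a ha)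
  refine ⟨ha.1, hai, ?_, ?_, fun n => D / n * C, ?_, ?_⟩
  · refine Integrable.mono' (integrable_const (C0 ^ 2))
      ((ha.1.norm.pow_const 2).const_mul _).aestronglyMeasurable ?_
    refine ae_of_all _ fun v => ?_
    rw [Real.norm_of_nonneg (by positivity), one_pow, one_mul]
    exact pow_le_pow_left₀ (norm_nonneg _) (hC0 v).2 2
  · filter_upwards [hC] with n hn using hn.1
  · have h1 : Tendsto (fun n : ℕ => D / (n : ℝ)) atTop (𝓝 0) :=
      tendsto_const_nhds.div_atTop tendsto_natCast_atTop_atTop
    simpa using h1.mul_const C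
  · filter_upwards [hC, eventually_ge_atTop 1] with n hn hn1 e
    obtain ⟨hdet, hinv, -⟩ := hn
    set f : Fin n → ℂ := fun l => ∑ i, e i * (TT n a)⁻¹ i l with hf
    have h1 := vecMul_bd hinv e
    have h2 := hD n hn1 (fun l => conj (f l))
    have hunit : IsUnit (TT n a).det := isUnit_iff_ne_zero.2 hdet
    have hfT : ∀ j, ∑ l, f l * TT n a l j = e j := by
      intro j
      have h4 : ((TT n a)⁻¹ * TT n a) = 1 := Matrix.nonsing_inv_mul _ hunit
      calc ∑ l, f l * TT n a l j = ∑ i, e i * ((TT n a)⁻¹ * TT n a) i j := by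
            simp only [hf, Matrix.mul_apply, Finset.sum_mul, Finset.mul_sum]
            rw [Finset.sum_comm]
            exact Finset.sum_congr rfl fun i _ => Finset.sum_congr rfl fun l _ => by ring
        _ = e j := by
            rw [h4]
            simp [Matrix.one_apply]
    have h3 : ∀ v, ‖∑ i, e i * xf n a v i‖ = ‖∑ l, gf n (fun v => conj (a v)) v l * conj (f l)‖ := by
      intro v
      have e1 : ∑ l, gf n (fun v => conj (a v)) v l * conj (f l) =
          conj (∑ i, e i * xf n a v i) := by
        rw [sum_xf]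
        unfold gf
        rw [TT_conj]
        simp only [Matrix.conjTranspose_apply, sub_mul, Finset.sum_sub_distrib, map_sub, map_mul,
          map_sum, Complex.star_def]
        congr 1
        · rw [Finset.mul_sum]
          refine Finset.sum_congr rfl fun l _ => ?_
          simp only [hf, map_sum, map_mul]
          ring
        · have e2 : ∀ j, conj (e j) = ∑ l, conj (f l) * conj (TT n a l j) := by
            intro j
            rw [← hfT j, map_sum]
            exact Finset.sum_congr rfl fun l _ => map_mul _ _ _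
          simp only [e2, Finset.sum_mul]
          rw [Finset.sum_comm]
          exact Finset.sum_congr rfl fun i _ => Finset.sum_congr rfl fun l _ => by ring
      rw [e1, RCLike.norm_conj]
    have h4 : ∫ v, (fun _ : Om => (1 : ℝ)) v ^ 2 * ‖∑ i, e i * xf n a v i‖ ^ 2 ∂sg =
        ∫ v, ‖∑ l, gf n (fun v => conj (a v)) v l * conj (f l)‖ ^ 2 ∂sg := by
      refine integral_congr_ae (ae_of_all _ fun v => ?_)
      simp only [one_pow, one_mul, h3]
    rw [h4]
    refine h2.trans ?_
    rw [ns_conj, mul_assoc]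
    exact mul_le_mul_of_nonneg_left h1 (by positivity)

end Pool.Agent.P8H98.FM
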