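import Pool.Agent.P8H98.FM.Mul1

/-!
Project FM (helper98): MUL, additivity of the trace functional.
-/

set_option autoImplicit false

open MeasureTheory Complex Filter Topology
open scoped ENNReal NNReal ComplexConjugate

namespace Pool.Agent.P8H98.FM

open Pool.Agent.R923.SE Pool.Agent.K7.H95.GMC

variable {n : ℕ}

/-- the row vector `φ(v)*` -/
noncomputable def pr (n : ℕ) (v : Om) (l : Fin n) : ℂ := conj (ph n v l)

lemma yf_vec (b : Om → ℂ) (v : Om) :
    yf n b v = b v • Matrix.vecMul (pr n v) (TT n b)⁻¹ - pr n v := by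
  funext l
  simp only [yf, Pi.sub_apply, Pi.smul_apply, smul_eq_mul, Matrix.vecMul, dotProduct, pr,
    Finset.mul_sum]
  congr 1
  exact Finset.sum_congr rfl fun i _ => by ring

lemma gf_vec (b : Om → ℂ) (v : Om) :
    gf n b v = b v • pr n v - Matrix.vecMul (pr n v) (TT n b) := by
  funext l
  simp only [gf, Pi.sub_apply, Pi.smul_apply, smul_eq_mul, Matrix.vecMul, dotProduct, pr]

lemma vecMul_bd' {A : Matrix (Fin n) (Fin n) ℂ} {C : ℝ} (hC : ∀ x, ns (A.mulVec x) ≤ C * ns x)
    (x : Fin n → ℂ) : ns (Matrix.vecMul x A) ≤ C * ns x := vecMul_bd hC x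

/-- the main algebraic identity -/
lemma fields {B C M : Matrix (Fin n) (Fin n) ℂ} (hB : IsUnit B.det) (hC : IsUnit C.det)
    (hM : IsUnit M.det) (p : Fin n → ℂ) (β χ : ℂ) :
    (β * χ) • Matrix.vecMul p M⁻¹ - p - (β • Matrix.vecMul p B⁻¹ - p) -
      (χ • Matrix.vecMul p C⁻¹ - p) =
    (Matrix.vecMul (β • (χ • p - Matrix.vecMul p C) - Matrix.vecMul (χ • p - Matrix.vecMul p C) B)
        M⁻¹ +
      Matrix.vecMul (χ • p - Matrix.vecMul p C) (C⁻¹ * (C * B - M) * M⁻¹) +
      Matrix.vecMul (β • p - Matrix.vecMul p B) (B⁻¹ * (B * C - M) * M⁻¹)) +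
      Matrix.vecMul p (B * C * M⁻¹ - 1) := by
  have e1 : C⁻¹ * (C * B - M) * M⁻¹ = B * M⁻¹ - C⁻¹ := by
    rw [mul_sub, sub_mul, ← mul_assoc, Matrix.nonsing_inv_mul _ hC, one_mul, mul_assoc,
      Matrix.mul_nonsing_inv _ hM, mul_one]
  have e2 : B⁻¹ * (B * C - M) * M⁻¹ = C * M⁻¹ - B⁻¹ := by
    rw [mul_sub, sub_mul, ← mul_assoc, Matrix.nonsing_inv_mul _ hB, one_mul, mul_assoc,
      Matrix.mul_nonsing_inv _ hM, mul_one]
  have e3 : Matrix.vecMul (Matrix.vecMul p C) C⁻¹ = p := by
    rw [Matrix.vecMul_vecMul, Matrix.mul_nonsing_inv _ hC, Matrix.vecMul_one]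
  have e4 : Matrix.vecMul (Matrix.vecMul p B) B⁻¹ = p := by
    rw [Matrix.vecMul_vecMul, Matrix.mul_nonsing_inv _ hB, Matrix.vecMul_one]
  rw [e1, e2]
  simp only [Matrix.sub_vecMul, Matrix.smul_vecMul, Matrix.vecMul_sub, Matrix.vecMul_vecMul,
    Matrix.vecMul_one] at e3 e4 ⊢
  rw [e3, e4]
  simp only [Matrix.mul_assoc]
  rw [mul_smul]
  simp only [smul_sub]
  abel

/-- additivity of the trace functional in the second slot -/
theorem mul_two (hK : S_KER) (hT : S_TRC) (hL : S_LIP) (hL2 : S_LIP2) (a : Om → ℂ)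
    (ω : Om → ℝ) (b c : Om → ℂ) (hg : Good a ω) (hω : Wt ω) (hb : Lp b) (hc : Lp c) :
    Tendsto (fun n => tn n a (fun v => b v * c v) - tn n a b - tn n a c) atTop (𝓝 0) := by
  obtain ⟨ha, hai, ha2, hda, ε, hε, hsm⟩ := hg
  have hbc := hL.1 b c hb hc
  obtain ⟨C1, hC1⟩ := hL.2.2 b hb
  obtain ⟨C2, hC2⟩ := hL.2.2 c hc
  obtain ⟨C3, hC3⟩ := hL.2.2 _ hbc
  obtain ⟨D1, hD1, hd1⟩ := hL2.1 b hb
  obtain ⟨D2, hD2, hd2⟩ := hL2.1 c hc
  obtain ⟨D3, hD3, hd3⟩ := hL2.2.2.1 b c hb hc
  obtain ⟨D4, hD4, hd4⟩ := hL2.2.2.1 c b hc hb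
  obtain ⟨D5, hD5, hd5⟩ := hL2.2.2.2 b c hb hc
  set I : ℝ := ∫ v, (ω v ^ 2)⁻¹ ∂sg with hI
  set G : ℝ := 3 * (|C3| * D5) + 3 * (|C2| * D4 * |C3| * D2) + 3 * (|C1| * D3 * |C3| * D1) with hG
  have hG0 : 0 ≤ G := by positivity
  have key : ∀ᶠ n : ℕ in atTop,
      ‖tn n a (fun v => b v * c v) - tn n a b - tn n a c‖ ^ 2 ≤ ε n * (G * I) := by
    filter_upwards [hda, hC1, hC2, hC3, hsm, eventually_ge_atTop 1] with n g1 g2 g3 g4 g5 g6
    obtain ⟨b1, b2, b3⟩ := g2
    obtain ⟨c1, c2, c3⟩ := g3
    obtain ⟨m1, m2, m3⟩ := g4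
    have hn0 : (0 : ℝ) < n := by exact_mod_cast g6
    have absC : ∀ {C : ℝ} {A : Matrix (Fin n) (Fin n) ℂ}, (∀ x, ns (A.mulVec x) ≤ C * ns x) →
        ∀ x, ns (A.mulVec x) ≤ |C| * ns x := fun h x =>
      (h x).trans (mul_le_mul_of_nonneg_right (le_abs_self _) (ns_nonneg _))
    obtain ⟨-, tb1, tb2⟩ := hT n a b ha hai hb g1 b1
    obtain ⟨-, -, tc2⟩ := hT n a c ha hai hc g1 c1
    obtain ⟨-, -, tm2⟩ := hT n a _ ha hai hbc g1 m1
    -- the error field
    set E : Om → Fin n → ℂ := fun v =>
      Matrix.vecMul (b v • gf n c v - Matrix.vecMul (gf n c v) (TT n b))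
        (TT n (fun v => b v * c v))⁻¹ +
      Matrix.vecMul (gf n c v) ((TT n c)⁻¹ * (TT n c * TT n b - TT n (fun v => b v * c v)) *
        (TT n (fun v => b v * c v))⁻¹) +
      Matrix.vecMul (gf n b v) ((TT n b)⁻¹ * (TT n b * TT n c - TT n (fun v => b v * c v)) *
        (TT n (fun v => b v * c v))⁻¹) with hE
    set X : Matrix (Fin n) (Fin n) ℂ :=
      TT n b * TT n c * (TT n (fun v => b v * c v))⁻¹ - 1 with hX
    have hid : ∀ v, yf n (fun v => b v * c v) v - yf n b v - yf n c v =
        E v + Matrix.vecMul (pr n v) X := by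
      intro v
      rw [yf_vec, yf_vec, yf_vec]
      simp only [hE, gf_vec]
      exact fields (isUnit_iff_ne_zero.2 b1) (isUnit_iff_ne_zero.2 c1) (isUnit_iff_ne_zero.2 m1)
        (pr n v) (b v) (c v)
    -- its size
    have hEb : ∀ v, nn2 v ≠ 0 → ns (E v) ≤ G / n := by
      intro v hv
      have k1 : ns (Matrix.vecMul (b v • gf n c v - Matrix.vecMul (gf n c v) (TT n b))
          (TT n (fun v => b v * c v))⁻¹) ≤ |C3| * (D5 / n) := by
        refine (vecMul_bd' (absC m2) _).trans ?_
        exact mul_le_mul_of_nonneg_left (hd5 n g6 v hv) (abs_nonneg _)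
      have k2 : ∀ x, ns ((TT n c * TT n b - TT n (fun v => b v * c v)).mulVec x) ≤
          D4 / n * ns x := by
        intro x
        have h := hd4 n g6 x
        have e1 : (fun v => c v * b v) = fun v => b v * c v := funext fun v => mul_comm _ _
        rw [e1] at h
        have e2 : (TT n c * TT n b - TT n (fun v => b v * c v)).mulVec x =
          -((TT n (fun v => b v * c v) - TT n c * TT n b).mulVec x) := by
          rw [← Matrix.neg_mulVec, neg_sub]
        rw [e2, ns_neg]
        exact h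
      have k3 : ∀ x, ns ((TT n b * TT n c - TT n (fun v => b v * c v)).mulVec x) ≤
          D3 / n * ns x := by
        intro x
        have h := hd3 n g6 x
        have e2 : (TT n b * TT n c - TT n (fun v => b v * c v)).mulVec x =
          -((TT n (fun v => b v * c v) - TT n b * TT n c).mulVec x) := by
          rw [← Matrix.neg_mulVec, neg_sub]
        rw [e2, ns_neg]
        exact h
      have k4 := vecMul_bd' (mulVec_bd_mul (by positivity) (mulVec_bd_mul (abs_nonneg C2)
        (absC c2) k2) (absC m2)) (gf n c v)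
      have k5 := vecMul_bd' (mulVec_bd_mul (by positivity) (mulVec_bd_mul (abs_nonneg C1)
        (absC b2) k3) (absC m2)) (gf n b v)
      have k6 : |C2| * (D4 / n) * |C3| * ns (gf n c v) ≤ |C2| * (D4 / n) * |C3| * D2 :=
        mul_le_mul_of_nonneg_left (hd2 n v hv) (by positivity)
      have k7 : |C1| * (D3 / n) * |C3| * ns (gf n b v) ≤ |C1| * (D3 / n) * |C3| * D1 :=
        mul_le_mul_of_nonneg_left (hd1 n v hv) (by positivity)
      refine (ns_add3_le _ _ _).trans ?_
      calc _ ≤ 3 * (|C3| * (D5 / n)) + 3 * (|C2| * (D4 / n) * |C3| * D2) +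
          3 * (|C1| * (D3 / n) * |C3| * D1) := by
            have := k4.trans k6
            have := k5.trans k7
            linarith
        _ = G / n := by rw [hG]; ring
    have hEm : ∀ l, Measurable fun v => E v l := by
      intro l
      have e1 : ∀ v, E v l = yf n (fun v => b v * c v) v l - yf n b v l - yf n c v l -
          ∑ i, conj (ph n v i) * X i l := by
        intro v
        have := congrFun (hid v) l
        simp only [Pi.sub_apply, Pi.add_apply, Matrix.vecMul, dotProduct, pr] at this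
        rw [this]
        ring
      simp only [e1]
      exact (((yf_meas hK hbc.1 l).sub (yf_meas hK hb.1 l)).sub (yf_meas hK hc.1 l)).sub
        (Finset.measurable_sum _ fun i _ => (Complex.continuous_conj.measurable.comp
          (ph_meas hK i)).mul_const _)
    -- single coordinates
    have hsingle : ∀ (i : Fin n) v, ∑ j, (Pi.single i (1 : ℂ) : Fin n → ℂ) j * xf n a v j =
        xf n a v i := by
      intro i v
      rw [Finset.sum_eq_single i]
      · simp
      · intro j _ hj
        simp [Pi.single_eq_of_ne hj]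
      · simp
    have hbd1 : ∀ (x : Fin n → ℂ) (l : Fin n), ‖x l‖ ^ 2 ≤ ns x := fun x l =>
      Finset.single_le_sum (f := fun l => ‖x l‖ ^ 2) (fun i _ => by positivity) (Finset.mem_univ l)
    have iy : ∀ (y : Om → Fin n → ℂ) (C : ℝ), (∀ l, Measurable fun v => y v l) →
        (∀ v, nn2 v ≠ 0 → ns (y v) ≤ C) → ∀ l i,
        Integrable (fun v => xf n a v i * y v l) sg := by
      intro y C hy1 hy2 l i
      have h := (pair_le hK hω ha ha2 (Pi.single i (1 : ℂ)) (hy1 l) (C := C)
        (fun v hv => (hbd1 _ l).trans (hy2 v hv))).1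
      simpa only [hsingle] using h
    have iE := iy E _ hEm hEb
    have iP := iy (fun v => pr n v) n (fun l => Complex.continuous_conj.measurable.comp
      (ph_meas hK l)) (fun v hv => by
        have := ns_ph hK hv (n := n)
        rw [← this]
        exact (ns_conj _).le)
    have iM := iy (fun v => yf n (fun v => b v * c v) v) _ (fun l => yf_meas hK hbc.1 l) m3
    have iB := iy (fun v => yf n b v) _ (fun l => yf_meas hK hb.1 l) b3
    have iC := iy (fun v => yf n c v) _ (fun l => yf_meas hK hc.1 l) c3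
    have hmain : tn n a (fun v => b v * c v) - tn n a b - tn n a c =
        ∫ v, ∑ l, xf n a v l * E v l ∂sg := by
      rw [tb2, tc2, tm2, ← integral_sub, ← integral_sub]
      · have e1 : ∀ v, ∑ l, xf n a v l * yf n (fun v => b v * c v) v l -
            ∑ l, xf n a v l * yf n b v l - ∑ l, xf n a v l * yf n c v l =
            ∑ l, xf n a v l * E v l + ∑ l, ∑ i, xf n a v l * pr n v i * X i l := by
          intro v
          rw [← Finset.sum_sub_distrib, ← Finset.sum_sub_distrib, ← Finset.sum_add_distrib]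
          refine Finset.sum_congr rfl fun l _ => ?_
          have := congrFun (hid v) l
          simp only [Pi.sub_apply, Pi.add_apply, Matrix.vecMul, dotProduct] at this
          have e2 : ∑ i, xf n a v l * pr n v i * X i l = xf n a v l * ∑ i, pr n v i * X i l := by
            rw [Finset.mul_sum]
            exact Finset.sum_congr rfl fun i _ => by ring
          rw [e2, ← mul_add, ← this]
          ring
        simp only [e1]
        rw [integral_add (integrable_finsetSum _ fun l _ => iE l l)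
          (integrable_finsetSum _ fun l _ => integrable_finsetSum _ fun i _ =>
            (iP i l).mul_const _)]
        have e3 : ∫ v, ∑ l, ∑ i, xf n a v l * pr n v i * X i l ∂sg = 0 := by
          rw [integral_finsetSum _ fun l _ => integrable_finsetSum _ fun i _ =>
            (iP i l).mul_const _]
          refine Finset.sum_eq_zero fun l _ => ?_
          rw [integral_finsetSum _ fun i _ => (iP i l).mul_const _]
          refine Finset.sum_eq_zero fun i _ => ?_
          rw [integral_mul_const]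
          have := tb1 l i
          unfold pr
          rw [this, zero_mul]
        rw [e3, add_zero]
      · exact (integrable_finsetSum _ fun l _ => iM l l).sub
          (integrable_finsetSum _ fun l _ => iB l l)
      · exact integrable_finsetSum _ fun l _ => iC l l
      · exact integrable_finsetSum _ fun l _ => iM l l
      · exact integrable_finsetSum _ fun l _ => iB l l
    -- the estimate
    rw [hmain]
    have hxm : ∀ l, Measurable fun v => xf n a v l := fun l => xf_meas hK ha l
    have hxn : Measurable fun v => ns (xf n a v) :=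
      Finset.measurable_sum _ fun l _ => (hxm l).norm.pow_const 2
    have hEn : Measurable fun v => ns (E v) :=
      Finset.measurable_sum _ fun l _ => (hEm l).norm.pow_const 2
    have ix : ∀ l, Integrable (fun v => ω v ^ 2 * ‖xf n a v l‖ ^ 2) sg := by
      intro l
      have h := int_xf hK hω.1 hω.2.1 ha ha2 (Pi.single l (1 : ℂ))
      simpa only [hsingle] using h
    have ixs : Integrable (fun v => ω v ^ 2 * ns (xf n a v)) sg := by
      have : (fun v => ω v ^ 2 * ns (xf n a v)) = fun v => ∑ l, ω v ^ 2 * ‖xf n a v l‖ ^ 2 := by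
        funext v
        unfold ns
        rw [Finset.mul_sum]
      rw [this]
      exact integrable_finsetSum _ fun l _ => ix l
    have hx1 : ∫ v, ω v ^ 2 * ns (xf n a v) ∂sg ≤ n * ε n := by
      have : (fun v => ω v ^ 2 * ns (xf n a v)) = fun v => ∑ l, ω v ^ 2 * ‖xf n a v l‖ ^ 2 := by
        funext v
        unfold ns
        rw [Finset.mul_sum]
      rw [this, integral_finsetSum _ fun l _ => ix l]
      have h1 : ∀ l ∈ (Finset.univ : Finset (Fin n)), ∫ v, ω v ^ 2 * ‖xf n a v l‖ ^ 2 ∂sg ≤ ε n := by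
        intro l _
        have h2 := g5 (Pi.single l (1 : ℂ))
        simp only [hsingle] at h2
        refine h2.trans (le_of_eq ?_)
        have : ns (Pi.single l (1 : ℂ) : Fin n → ℂ) = 1 := by
          unfold ns
          rw [Finset.sum_eq_single l]
          · simp
          · intro j _ hj
            simp [Pi.single_eq_of_ne hj]
          · simp
        rw [this, mul_one]
      refine (Finset.sum_le_sum h1).trans (le_of_eq ?_)
      simp
    have hf2 : Integrable (fun v => (ω v * √(ns (xf n a v))) ^ 2) sg := by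
      refine ixs.congr (ae_of_all _ fun v => ?_)
      simp only [mul_pow]
      rw [Real.sq_sqrt (ns_nonneg _)]
    have hg2 : Integrable (fun v => ((ω v)⁻¹ * √(ns (E v))) ^ 2) sg := by
      refine Integrable.mono' (hω.2.2.2.const_mul (G / n))
        ((hω.1.inv.mul hEn.sqrt).pow_const 2).aestronglyMeasurable ?_
      filter_upwards [ae_nn2 hK] with v hv
      rw [Real.norm_of_nonneg (by positivity), mul_pow, inv_pow, Real.sq_sqrt (ns_nonneg _),
        mul_comm (G / n)]
      exact mul_le_mul_of_nonneg_left (hEb v hv) (by positivity)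
    obtain ⟨h1, h2⟩ := cs_int (f := fun v => ω v * √(ns (xf n a v)))
      (g := fun v => (ω v)⁻¹ * √(ns (E v)))
      (fun v => mul_nonneg (hω.2.1 v).1 (Real.sqrt_nonneg _))
      (fun v => mul_nonneg (inv_nonneg.2 (hω.2.1 v).1) (Real.sqrt_nonneg _))
      (hω.1.mul hxn.sqrt).aestronglyMeasurable
      (hω.1.inv.mul hEn.sqrt).aestronglyMeasurable hf2 hg2
    have h3 : ∀ᵐ v ∂sg, ‖∑ l, xf n a v l * E v l‖ ≤
        ω v * √(ns (xf n a v)) * ((ω v)⁻¹ * √(ns (E v))) := by
      filter_upwards [hω.2.2.1] with v hv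
      have h4 : ω v * √(ns (xf n a v)) * ((ω v)⁻¹ * √(ns (E v))) =
          √(ns (xf n a v)) * √(ns (E v)) := by field_simp
      rw [h4]
      refine abs_le_of_sq_le_sq' ?_ (by positivity) |>.2
      rw [mul_pow, Real.sq_sqrt (ns_nonneg _), Real.sq_sqrt (ns_nonneg _)]
      exact cs_sum _ _
    have h5 : ‖∫ v, ∑ l, xf n a v l * E v l ∂sg‖ ≤
        ∫ v, ω v * √(ns (xf n a v)) * ((ω v)⁻¹ * √(ns (E v))) ∂sg :=
      norm_integral_le_of_norm_le h1 h3
    have h6 : ∫ v, (ω v * √(ns (xf n a v))) ^ 2 ∂sg ≤ n * ε n := by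
      refine le_trans (le_of_eq ?_) hx1
      refine integral_congr_ae (ae_of_all _ fun v => ?_)
      simp only [mul_pow]
      rw [Real.sq_sqrt (ns_nonneg _)]
    have h7 : ∫ v, ((ω v)⁻¹ * √(ns (E v))) ^ 2 ∂sg ≤ G / n * I := by
      rw [hI, ← integral_const_mul]
      refine integral_mono_ae hg2 (hω.2.2.2.const_mul _) ?_
      filter_upwards [ae_nn2 hK] with v hv
      rw [mul_pow, inv_pow, Real.sq_sqrt (ns_nonneg _), mul_comm (G / n)]
      exact mul_le_mul_of_nonneg_left (hEb v hv) (by positivity)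
    have h8 : 0 ≤ ∫ v, ((ω v)⁻¹ * √(ns (E v))) ^ 2 ∂sg := integral_nonneg fun v => by positivity
    have h9 : 0 ≤ (n : ℝ) * ε n :=
      (integral_nonneg fun v => by positivity : 0 ≤ ∫ v, (ω v * √(ns (xf n a v))) ^ 2 ∂sg).trans h6
    calc ‖∫ v, ∑ l, xf n a v l * E v l ∂sg‖ ^ 2 ≤
        (∫ v, ω v * √(ns (xf n a v)) * ((ω v)⁻¹ * √(ns (E v))) ∂sg) ^ 2 :=
          pow_le_pow_left₀ (norm_nonneg _) h5 2
      _ ≤ (n * ε n) * (G / n * I) := h2.trans (mul_le_mul h6 h7 h8 h9)
      _ = ε n * (G * I) := by field_simp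
  have h0 : Tendsto (fun n => ε n * (G * I)) atTop (𝓝 0) := by
    simpa using hε.mul_const (G * I)
  have h1 : Tendsto (fun n : ℕ => ‖tn n a (fun v => b v * c v) - tn n a b - tn n a c‖ ^ 2) atTop
      (𝓝 0) := squeeze_zero' (Eventually.of_forall fun n => by positivity) key h0
  have h2 : Tendsto (fun n : ℕ => √(‖tn n a (fun v => b v * c v) - tn n a b - tn n a c‖ ^ 2)) atTop
      (𝓝 0) := by
    have := (Real.continuous_sqrt.tendsto 0).comp h1
    simpa [Function.comp_def] using this
  rw [tendsto_zero_iff_norm_tendsto_zero]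
  refine h2.congr fun n => ?_
  rw [Real.sqrt_sq (norm_nonneg _)]

/-- **MUL** -/
theorem mul (hK : S_KER) (hA : S_LA) (hT : S_TRC) (hL : S_LIP) (hL2 : S_LIP2) : S_MUL :=
  ⟨mul_first hK hA hT hL, mul_two hK hT hL hL2, mul_three hL hL2, fun a b _ _ n => mul_four a b n⟩

end Pool.Agent.P8H98.FM
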