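import Pool.Agent.P8H98.FM.Asm4
import Pool.Agent.K7.H89.GMC.GEO

/-!
Project FM (helper98): the final statement from ASM, ONE, LNK.
-/

set_option autoImplicit false

open MeasureTheory Complex Filter Topology
open scoped ENNReal NNReal ComplexConjugate

namespace Pool.Agent.P8H98.FM

open Pool.Agent.R923.SE Pool.Agent.K7.H95.GMC

lemma nn2_sp' (u : S2) : nn2 (sp u) = 1 := by
  have h := Pool.Agent.K7.H89.GMC.s_GEO.2.2.1 u
  unfold nn2 sp
  simp only [norm_neg]
  linarith

lemma d2_sp' (u v : S2) : d2 (sp u) (sp v) = ‖(u : R3) - (v : R3)‖ ^ 2 / 4 := by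
  have h := Pool.Agent.K7.H89.GMC.s_GEO.2.2.2.1 v u
  unfold d2
  rw [nn2_sp', nn2_sp', mul_one, div_one]
  have e1 : hp (sp u) (sp v) = sa u * conj (sa v) + sb u * conj (sb v) := by
    unfold hp sp
    simp only [map_neg]
    ring
  rw [e1, h, norm_sub_rev (v : R3) (u : R3)]
  ring

/-- **RES** -/
theorem res (hA : S_ASM) (hO : S_ONE) (hN : S_LNK) : S_RES := by
  intro k P γ hPi hγ
  have hq : ∀ i, -1 < (γ i / 2).re := by
    intro i
    have : (γ i / 2).re = (γ i).re / 2 := by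
      rw [show (2 : ℂ) = ((2 : ℝ) : ℂ) by norm_num, Complex.div_ofReal_re]
    rw [this]
    linarith [hγ i]
  have hQ : ∀ i, nn2 (sp (P i)) ≠ 0 := fun i => by rw [nn2_sp']; exact one_ne_zero
  have hdist : ∀ i j, i ≠ j → 0 < ‖(P i : R3) - (P j : R3)‖ := by
    intro i j hij
    rw [norm_pos_iff, sub_ne_zero]
    exact fun h => hij (hPi (Subtype.ext h))
  have hd : ∀ i j, i ≠ j → 0 < d2 (sp (P i)) (sp (P j)) := by
    intro i j hij
    rw [d2_sp']
    have := hdist i j hij
    positivity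
  refine ⟨fun n => (hN n k P γ hPi hγ).1, ?_⟩
  have h1 := hA k (fun i => sp (P i)) (fun i => γ i / 2) hQ hd hq
  have h2 : Tendsto (fun n => ∏ i, (DD n (fun v => ((d2 v (sp (P i)) : ℝ) : ℂ) ^ (γ i / 2)) /
      m1 n (γ i / 2))) atTop (𝓝 1) := by
    have h3 : ∀ i ∈ (Finset.univ : Finset (Fin k)),
        Tendsto (fun n => DD n (fun v => ((d2 v (sp (P i)) : ℝ) : ℂ) ^ (γ i / 2)) /
          m1 n (γ i / 2)) atTop (𝓝 1) := by
      intro i _
      obtain ⟨h4, -, h5⟩ := hO (γ i / 2) (hq i)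
      refine h5.congr fun n => ?_
      rw [h4 n _ (hQ i)]
    have h6 := tendsto_finsetProd Finset.univ h3
    simpa using h6
  set Z : ℂ := -∑ i, ∑ j ∈ Finset.univ.filter (fun j => i < j),
      γ i / 2 * (γ j / 2) * ((1 + Real.log (d2 (sp (P i)) (sp (P j))) : ℝ) : ℂ) with hZ
  have h3 := (h1.mul h2).div_const (cexp Z)
  rw [mul_one, div_self (Complex.exp_ne_zero _)] at h3
  refine h3.congr' ?_
  filter_upwards [h2.eventually_ne (one_ne_zero : (1 : ℂ) ≠ 0), eventually_ge_atTop 1] with n hn hn1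
  rw [(hN n k P γ hPi hγ).2]
  have hn0 : (n : ℂ) ≠ 0 := by
    have : n ≠ 0 := by omega
    exact_mod_cast this
  rw [Finset.prod_div_distrib] at hn ⊢
  have hD : ∏ i, DD n (fun v => ((d2 v (sp (P i)) : ℝ) : ℂ) ^ (γ i / 2)) ≠ 0 := by
    intro h
    rw [h, zero_div] at hn
    exact hn rfl
  -- the main term
  have hmain : cexp (-(∑ i, γ i) / 2 * n - (∑ i, γ i) / 4 - (∑ i, γ i) ^ 2 / 8) *
      (2 * (Real.pi : ℂ)) ^ ((∑ i, γ i) / 4) * (n : ℂ) ^ ((∑ i, γ i ^ 2) / 8) /
      (∏ i, ∏ j ∈ Finset.univ.filter (fun j => i < j),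
        ((‖(P i : R3) - (P j : R3)‖ / 2 : ℝ) : ℂ) ^ (γ i * γ j / 2)) /
      ∏ i, barnesG (1 + γ i / 2) = (∏ i, m1 n (γ i / 2)) * cexp Z := by
    have hpi : (2 * (Real.pi : ℂ)) ≠ 0 := by
      have := Real.pi_ne_zero
      exact mul_ne_zero two_ne_zero (by exact_mod_cast this)
    have e1 : ∏ i, ∏ j ∈ Finset.univ.filter (fun j => i < j),
        ((‖(P i : R3) - (P j : R3)‖ / 2 : ℝ) : ℂ) ^ (γ i * γ j / 2) =
        cexp (∑ i, ∑ j ∈ Finset.univ.filter (fun j => i < j),
          γ i * γ j * ((Real.log (‖(P i : R3) - (P j : R3)‖ / 2) : ℝ) : ℂ) / 2) := by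
      rw [Complex.exp_sum]
      refine Finset.prod_congr rfl fun i _ => ?_
      rw [Complex.exp_sum]
      refine Finset.prod_congr rfl fun j hj => ?_
      have hij : i ≠ j := (Finset.mem_filter.1 hj).2.ne
      have hp0 : 0 < ‖(P i : R3) - (P j : R3)‖ / 2 := by
        have := hdist i j hij
        positivity
      rw [Complex.cpow_def_of_ne_zero (by exact_mod_cast hp0.ne'), ← Complex.ofReal_log hp0.le]
      congr 1
      ring
    have e2 : ∏ i, m1 n (γ i / 2) = cexp (∑ i, (-(n : ℂ) * (γ i / 2) +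
        Complex.log n * ((γ i / 2) ^ 2 / 2) + Complex.log (2 * (Real.pi : ℂ)) * (γ i / 2 / 2) +
        (-(γ i / 2) / 2 - (γ i / 2) ^ 2 / 2))) / ∏ i, barnesG (1 + γ i / 2) := by
      unfold m1
      rw [Finset.prod_div_distrib, Complex.exp_sum]
      congr 1
      refine Finset.prod_congr rfl fun i _ => ?_
      rw [Complex.cpow_def_of_ne_zero hn0, Complex.cpow_def_of_ne_zero hpi, ← Complex.exp_add,
        ← Complex.exp_add, ← Complex.exp_add]
    rw [e1, e2, Complex.cpow_def_of_ne_zero hn0, Complex.cpow_def_of_ne_zero hpi,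
      ← Complex.exp_add, ← Complex.exp_add, ← Complex.exp_sub]
    conv_rhs => rw [div_mul_eq_mul_div, ← Complex.exp_add]
    congr 2
    -- the exponents
    have s1 : (∑ i, γ i) ^ 2 = ∑ i, γ i ^ 2 + 2 * ∑ i, ∑ j ∈ Finset.univ.filter (fun j => i < j),
        γ i * γ j := by
      rw [sq, Finset.sum_mul_sum, sum_split (fun i j => γ i * γ j), Finset.mul_sum]
      congr 1
      · exact Finset.sum_congr rfl fun i _ => (sq _).symm
      · refine Finset.sum_congr rfl fun i _ => ?_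
        rw [Finset.mul_sum]
        exact Finset.sum_congr rfl fun j _ => by ring
    have s2 : Z = -(∑ i, ∑ j ∈ Finset.univ.filter (fun j => i < j), γ i * γ j) / 4 -
        ∑ i, ∑ j ∈ Finset.univ.filter (fun j => i < j),
          γ i * γ j * ((Real.log (‖(P i : R3) - (P j : R3)‖ / 2) : ℝ) : ℂ) / 2 := by
      rw [hZ, neg_div, ← neg_add', Finset.sum_div, ← Finset.sum_add_distrib]
      congr 1
      refine Finset.sum_congr rfl fun i _ => ?_
      rw [Finset.sum_div, ← Finset.sum_add_distrib]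
      refine Finset.sum_congr rfl fun j hj => ?_
      have hij : i ≠ j := (Finset.mem_filter.1 hj).2.ne
      have hp0 := hdist i j hij
      have e3 : Real.log (d2 (sp (P i)) (sp (P j))) =
          2 * Real.log (‖(P i : R3) - (P j : R3)‖ / 2) := by
        rw [d2_sp', show ‖(P i : R3) - (P j : R3)‖ ^ 2 / 4 =
          (‖(P i : R3) - (P j : R3)‖ / 2) ^ 2 by ring, Real.log_pow]
        push_cast
        ring
      rw [e3]
      push_cast
      ring
    have s3 : ∑ i, (-(n : ℂ) * (γ i / 2) + Complex.log n * ((γ i / 2) ^ 2 / 2) +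
        Complex.log (2 * (Real.pi : ℂ)) * (γ i / 2 / 2) + (-(γ i / 2) / 2 - (γ i / 2) ^ 2 / 2)) =
        -(n : ℂ) * (∑ i, γ i) / 2 + Complex.log n * (∑ i, γ i ^ 2) / 8 +
        Complex.log (2 * (Real.pi : ℂ)) * (∑ i, γ i) / 4 - (∑ i, γ i) / 4 -
        (∑ i, γ i ^ 2) / 8 := by
      simp only [Finset.mul_sum, Finset.sum_div]
      rw [← Finset.sum_add_distrib, ← Finset.sum_add_distrib, ← Finset.sum_sub_distrib,
        ← Finset.sum_sub_distrib]
      exact Finset.sum_congr rfl fun i _ => by ring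
    rw [s1, s2, s3]
    ring
  rw [hmain]
  have := Complex.exp_ne_zero Z
  field_simp

end Pool.Agent.P8H98.FM
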