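import Pool.Agent.K7.H95.GMC.Defs2

/-!
Project FM (helper98): multi-point Fisher–Hartwig asymptotics for the spherical ensemble
(MP_8d6f76_pr). Definitions and the statements of the packages.
-/

set_option autoImplicit false

open MeasureTheory Complex Filter Topology
open scoped ENNReal NNReal ComplexConjugate

namespace Pool.Agent.P8H98.FM

open Pool.Agent.R923.SE Pool.Agent.K7.H95.GMC

noncomputable section

/-! ### The space, the coherent states, the Toeplitz matrices -/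

/-- `ℂ²` -/
abbrev Om := ℂ × ℂ

/-- the standard Gaussian law on `ℂ²` -/
def sg : Measure Om := cg.prod cg

instance : IsProbabilityMeasure sg := by unfold sg; infer_instance

/-- squared norm -/
def nn2 (v : Om) : ℝ := ‖v.1‖ ^ 2 + ‖v.2‖ ^ 2

/-- hermitian product -/
def hp (v w : Om) : ℂ := v.1 * conj w.1 + v.2 * conj w.2

/-- squared (half chordal) distance of the directions of `v` and `w` -/
def d2 (v w : Om) : ℝ := 1 - ‖hp v w‖ ^ 2 / (nn2 v * nn2 w)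

/-- the coherent state of the direction of `v` -/
def ph (n : ℕ) (v : Om) (j : Fin n) : ℂ :=
  ((√((n : ℝ) * ((n - 1).choose (j : ℕ) : ℝ)) : ℝ) : ℂ) * v.1 ^ (j : ℕ) * v.2 ^ (n - 1 - (j : ℕ)) /
    ((√(nn2 v) ^ (n - 1) : ℝ) : ℂ)

/-- the Toeplitz matrix `∫ h φ φ*` -/
def TT (n : ℕ) (h : Om → ℂ) : Matrix (Fin n) (Fin n) ℂ :=
  Matrix.of fun i j => ∫ v, h v * (ph n v i * conj (ph n v j)) ∂sg

/-- its determinant -/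
def DD (n : ℕ) (h : Om → ℂ) : ℂ := (TT n h).det

/-- squared euclidean norm of a vector -/
def ns {n : ℕ} (x : Fin n → ℂ) : ℝ := ∑ i, ‖x i‖ ^ 2

/-- density of the Beta law with parameters `j + 1`, `n - j` -/
def bd (n j : ℕ) (x : ℝ) : ℝ := n * (n - 1).choose j * x ^ j * (1 - x) ^ (n - 1 - j)

/-- averages against this Beta law, complex valued functions -/
def lam (n : ℕ) (f : ℝ → ℂ) (j : ℕ) : ℂ := ∫ x in (0 : ℝ)..1, ((bd n j x : ℝ) : ℂ) * f x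

/-- averages against this Beta law, real valued functions -/
def lar (n : ℕ) (f : ℝ → ℝ) (j : ℕ) : ℝ := ∫ x in (0 : ℝ)..1, bd n j x * f x

/-- the singular factor -/
def sc (δ : ℝ) (q : ℂ) (x : ℝ) : ℂ := ((min (x / δ) 1 : ℝ) : ℂ) ^ q

/-- the regular factor, `sc δ q x * bc δ q x = x ^ q` -/
def bc (δ : ℝ) (q : ℂ) (x : ℝ) : ℂ := ((max x δ : ℝ) : ℂ) ^ q

/-- Lipschitz functions of the direction, bounded and bounded away from zero -/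
def Lp (b : Om → ℂ) : Prop := Measurable b ∧
  (∃ L : ℝ, 0 ≤ L ∧ ∀ v w, nn2 v ≠ 0 → nn2 w ≠ 0 → ‖b v - b w‖ ≤ L * √(d2 v w)) ∧
  ∃ c C : ℝ, 0 < c ∧ ∀ v, c ≤ ‖b v‖ ∧ ‖b v‖ ≤ C

/-- weights -/
def Wt (ω : Om → ℝ) : Prop := Measurable ω ∧ (∀ v, 0 ≤ ω v ∧ ω v ≤ 1) ∧
  (∀ᵐ v ∂sg, 0 < ω v) ∧ Integrable (fun v => (ω v ^ 2)⁻¹) sg

/-- the vector field `(T(a)⁻¹ a(v) - 1) φ(v)` -/
def xf (n : ℕ) (a : Om → ℂ) (v : Om) (i : Fin n) : ℂ :=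
  ((TT n a)⁻¹.mulVec fun l => a v * ph n v l) i - ph n v i

/-- the row vector field `φ(v)* (b(v) T(b)⁻¹ - 1)` -/
def yf (n : ℕ) (b : Om → ℂ) (v : Om) (l : Fin n) : ℂ :=
  (∑ i, b v * conj (ph n v i) * (TT n b)⁻¹ i l) - conj (ph n v l)

/-- symbols `a` (possibly singular) for which `xf n a` is small in the weighted operator norm -/
def Good (a : Om → ℂ) (ω : Om → ℝ) : Prop := Measurable a ∧ Integrable a sg ∧
  Integrable (fun v => ω v ^ 2 * ‖a v‖ ^ 2) sg ∧ (∀ᶠ n : ℕ in atTop, (TT n a).det ≠ 0) ∧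
  ∃ ε : ℕ → ℝ, Tendsto ε atTop (𝓝 0) ∧ ∀ᶠ n : ℕ in atTop, ∀ e : Fin n → ℂ,
    ∫ v, ω v ^ 2 * ‖∑ i, e i * xf n a v i‖ ^ 2 ∂sg ≤ ε n * ns e

/-- `T(a)⁻¹` is at most polynomially large -/
def PB (a : Om → ℂ) : Prop := ∃ C : ℝ, 0 < C ∧ ∀ᶠ n : ℕ in atTop, (TT n a).det ≠ 0 ∧
  ∀ x : Fin n → ℂ, ns ((TT n a)⁻¹.mulVec x) ≤ (n : ℝ) ^ C * ns x

/-- `tr (T(a)⁻¹ T(ab) T(b)⁻¹) - n` -/
def tn (n : ℕ) (a b : Om → ℂ) : ℂ :=
  ((TT n a)⁻¹ * TT n (fun v => a v * b v) * (TT n b)⁻¹).trace - n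

/-- the two functions are different from one only at a positive distance from each other -/
def Far (a s : Om → ℂ) : Prop := ∃ ρ : ℝ, 0 < ρ ∧ ∀ v w, nn2 v ≠ 0 → nn2 w ≠ 0 →
  a v ≠ 1 → s w ≠ 1 → ρ ≤ d2 v w

/-- spinor coordinates of a point of the sphere, `d2 v (sp u) = ‖u - T⁻¹ (v₁ / v₂)‖² / 4` -/
def sp (u : S2) : Om := (-sb u, sa u)

/-- the one point main term, `q = γ / 2` -/
def m1 (n : ℕ) (q : ℂ) : ℂ :=
  cexp (-(n : ℂ) * q) * (n : ℂ) ^ (q ^ 2 / 2) * (2 * (Real.pi : ℂ)) ^ (q / 2) *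
    cexp (-q / 2 - q ^ 2 / 2) / barnesG (1 + q)

/-! ### Packages -/

/-- LA: the regularised determinant -/
def S_LA : Prop := ∀ (n : ℕ) (K : Matrix (Fin n) (Fin n) ℂ), ∑ i, ∑ j, ‖K i j‖ ^ 2 ≤ 1 / 4 →
  ∃ e : ℂ, ‖e‖ ≤ ∑ i, ∑ j, ‖K i j‖ ^ 2 ∧ (1 + K).det = cexp (K.trace + e)

/-- KER: elementary facts on the kernel and the distance -/
def S_KER : Prop :=
  (∀ (n : ℕ) (v w : Om), nn2 v ≠ 0 → nn2 w ≠ 0 → ∑ j, conj (ph n v j) * ph n w j =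
    n * (hp w v / ((√(nn2 v) * √(nn2 w) : ℝ) : ℂ)) ^ (n - 1)) ∧
  (∀ (n : ℕ) (v w : Om), nn2 v ≠ 0 → nn2 w ≠ 0 → ‖∑ j, conj (ph n v j) * ph n w j‖ ^ 2 =
    (n : ℝ) ^ 2 * (1 - d2 v w) ^ (n - 1)) ∧
  (∀ (n : ℕ) (v : Om), nn2 v ≠ 0 → ns (ph n v) = n) ∧
  (∀ (n : ℕ) (j : Fin n), Measurable fun v => ph n v j) ∧
  (∀ᵐ v ∂sg, nn2 v ≠ 0) ∧
  (Measurable fun p : Om × Om => d2 p.1 p.2) ∧
  (∀ v w, 0 ≤ d2 v w ∧ d2 v w ≤ 1 ∧ d2 v w = d2 w v) ∧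
  (∀ v w u, nn2 v ≠ 0 → nn2 w ≠ 0 → nn2 u ≠ 0 → √(d2 v w) ≤ √(d2 v u) + √(d2 u w)) ∧
  (∀ w : Om, nn2 w ≠ 0 → ∀ f : ℝ → ℝ≥0∞, Measurable f →
    ∫⁻ v, f (d2 v w) ∂sg = ∫⁻ t in Set.Icc (0 : ℝ) 1, f t)

/-- ONB: the coherent states are orthonormal, radial symbols are diagonal in an adapted basis,
symmetry in two points -/
def S_ONB : Prop :=
  (∀ n : ℕ, TT n (fun _ => 1) = 1) ∧
  (∀ (n : ℕ) (p : Om), nn2 p ≠ 0 → ∃ U : Matrix (Fin n) (Fin n) ℂ,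
    U ∈ Matrix.unitaryGroup (Fin n) ℂ ∧ ∀ f : ℝ → ℂ, IntegrableOn f (Set.Icc 0 1) volume →
      Measurable f → TT n (fun v => f (d2 v p)) =
        U * Matrix.diagonal (fun j : Fin n => lam n f j) * U.conjTranspose) ∧
  (∀ (n : ℕ) (v w : Om), nn2 v ≠ 0 → nn2 w ≠ 0 → ∀ F : ℝ × ℝ → ℂ, Measurable F →
    Integrable (fun u => F (d2 u v, d2 u w)) sg →
    DD n (fun u => F (d2 u v, d2 u w)) = DD n (fun u => F (d2 u w, d2 u v)))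

/-- BET: radial singular symbols, one variable estimates -/
def S_BET : Prop := ∀ (δ : ℝ) (q : ℂ) (κ : ℝ), 0 < δ → δ ≤ 1 → -1 < q.re → 0 < κ → κ < 1 →
  -1 < 2 * q.re + κ → ∃ C : ℝ, 0 < C ∧ ∀ᶠ n : ℕ in atTop, ∀ j < n,
    (n : ℝ) ^ (-C) ≤ ‖lam n (sc δ q) j‖ ∧
    lar n (fun x => ‖sc δ q x / lam n (sc δ q) j - 1‖ ^ 2 * x ^ κ) j ≤ C * (n : ℝ) ^ (-κ)

/-- BET2: additivity in the exponent of the singular symbol -/
def S_BET2 : Prop := ∀ (δ : ℝ) (q q' : ℂ) (κ : ℝ), 0 < δ → δ ≤ 1 → -1 < q.re → -1 < q'.re →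
  -1 < (q + q').re → 0 < κ → κ < 1 → -1 < 2 * q.re + κ → -1 < 2 * q'.re + κ →
  -1 < 2 * (q + q').re + κ →
  Tendsto (fun n : ℕ => ∑ j ∈ Finset.range n, lar n (fun x =>
    ‖sc δ (q + q') x / lam n (sc δ (q + q')) j - sc δ q x / lam n (sc δ q) j -
      sc δ q' x / lam n (sc δ q') j + 1‖ ^ 2 * x ^ κ) j) atTop (𝓝 0)

/-- LIP: Lipschitz symbols -/
def S_LIP : Prop :=
  (∀ b c, Lp b → Lp c → Lp (fun v => b v * c v)) ∧ (∀ b, Lp b → Lp (fun v => conj (b v))) ∧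
  (∀ b, Lp b → ∃ C : ℝ, ∀ᶠ n : ℕ in atTop, (TT n b).det ≠ 0 ∧
    (∀ x : Fin n → ℂ, ns ((TT n b)⁻¹.mulVec x) ≤ C * ns x) ∧
    ∀ v, nn2 v ≠ 0 → ns (yf n b v) ≤ C)

/-- TRC: the trace and the fields -/
def S_TRC : Prop := ∀ (n : ℕ) (a b : Om → ℂ), Measurable a → Integrable a sg → Lp b →
  (TT n a).det ≠ 0 → (TT n b).det ≠ 0 →
  (∀ i l : Fin n, ((TT n a)⁻¹ * TT n (fun v => a v * b v) * (TT n b)⁻¹ - 1) i l =
    ∫ v, xf n a v i * yf n b v l ∂sg) ∧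
  (∀ i l : Fin n, ∫ v, xf n a v i * conj (ph n v l) ∂sg = 0) ∧
  tn n a b = ∫ v, ∑ l, xf n a v l * yf n b v l ∂sg

/-- MUL: multiplicativity -/
def S_MUL : Prop :=
  (∀ a ω b, Good a ω → Wt ω → Lp b →
    Tendsto (fun n => DD n (fun v => a v * b v) / (DD n a * DD n b) * cexp (-tn n a b)) atTop
      (𝓝 1)) ∧
  (∀ a ω b c, Good a ω → Wt ω → Lp b → Lp c →
    Tendsto (fun n => tn n a (fun v => b v * c v) - tn n a b - tn n a c) atTop (𝓝 0)) ∧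
  (∀ a, Lp a → Good a (fun _ => 1)) ∧
  (∀ a b, Lp a → Lp b → ∀ n, tn n a b = conj (tn n (fun v => conj (b v)) (fun v => conj (a v))))

/-- SEP: separation of distant singularities -/
def S_SEP : Prop := ∀ (a s : Om → ℂ) (ω : Om → ℝ), Wt ω → Good a ω → Good s ω → PB a → PB s →
  Far a s → Good (fun v => a v * s v) ω ∧ PB (fun v => a v * s v) ∧
  Tendsto (fun n => DD n (fun v => a v * s v) / (DD n a * DD n s)) atTop (𝓝 1) ∧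
  ∀ b, Lp b → Tendsto (fun n => tn n (fun v => a v * s v) b - tn n a b - tn n s b) atTop (𝓝 0)

/-- RAD: radial singular symbols -/
def S_RAD : Prop :=
  (∀ (p : Om) (δ : ℝ) (q : ℂ) (κ : ℝ), nn2 p ≠ 0 → 0 < δ → δ ≤ 1 → -1 < q.re → 0 < κ → κ < 1 →
    -1 < 2 * q.re + κ → Good (fun v => sc δ q (d2 v p)) (fun v => d2 v p ^ (κ / 2)) ∧
      PB (fun v => sc δ q (d2 v p))) ∧
  ∀ (p : Om) (δ : ℝ) (q q' : ℂ) (b : Om → ℂ), nn2 p ≠ 0 → 0 < δ → δ ≤ 1 → -1 < q.re →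
    -1 < q'.re → -1 < (q + q').re → Lp b →
    Tendsto (fun n => tn n (fun v => sc δ (q + q') (d2 v p)) b - tn n (fun v => sc δ q (d2 v p)) b -
      tn n (fun v => sc δ q' (d2 v p)) b) atTop (𝓝 0)

/-- ONE: one point -/
def S_ONE : Prop := ∀ q : ℂ, -1 < q.re →
  (∀ (n : ℕ) (p : Om), nn2 p ≠ 0 → DD n (fun v => ((d2 v p : ℝ) : ℂ) ^ q) =
    ∏ j ∈ Finset.range n, (Complex.Gamma ((j : ℂ) + 1 + q) * Complex.Gamma ((n : ℂ) + 1) /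
      (Complex.Gamma ((j : ℂ) + 1) * Complex.Gamma ((n : ℂ) + 1 + q)))) ∧
  barnesG (1 + q) ≠ 0 ∧
  Tendsto (fun n : ℕ => (∏ j ∈ Finset.range n,
    (Complex.Gamma ((j : ℂ) + 1 + q) * Complex.Gamma ((n : ℂ) + 1) /
      (Complex.Gamma ((j : ℂ) + 1) * Complex.Gamma ((n : ℂ) + 1 + q)))) / m1 n q) atTop (𝓝 1)

/-- DEN: the joint law of the eigenvalues -/
def S_DENS : Prop := ∀ n : ℕ, ∃ c : ℝ≥0∞, c ≠ 0 ∧ c ≠ ∞ ∧
  ∀ G : Mt n n → ℝ≥0∞, Measurable G →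
  (∀ X X' : Mt n n, (Matrix.of X).charpoly = (Matrix.of X').charpoly → G X = G X') →
  ∫⁻ x, G (Matrix.of x.1 * (Matrix.of x.2)⁻¹) ∂gg n =
    c * ∫⁻ z : Fin n → ℂ, G (Matrix.diagonal z) *
      ENNReal.ofReal (‖(Matrix.vandermonde z).det‖ ^ 2 * ∏ i, ((1 + ‖z i‖ ^ 2) ^ (n + 1))⁻¹)

/-- LNK: the exponential moments of the linear statistics are Toeplitz determinants -/
def S_LNK : Prop := ∀ (n k : ℕ) (P : Fin k → S2) (γ : Fin k → ℂ), Function.Injective P →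
  (∀ i, -2 < (γ i).re) →
  Integrable (fun x : Mt n n × Mt n n => cexp (∑ i, γ i * ((Lg x (P i) : ℝ) : ℂ))) (gg n) ∧
  ∫ x, cexp (∑ i, γ i * ((Lg x (P i) : ℝ) : ℂ)) ∂gg n =
    DD n (fun v => ∏ i, ((d2 v (sp (P i)) : ℝ) : ℂ) ^ (γ i / 2))

/-- TWO: two opposite charges (from `S_UNIF`) -/
def S_TWO : Prop := ∀ (v w : Om), nn2 v ≠ 0 → nn2 w ≠ 0 → 0 < d2 v w → ∀ a : ℂ, |a.re| < 1 →
  Tendsto (fun n => DD n (fun u => ((d2 u v : ℝ) : ℂ) ^ a * ((d2 u w : ℝ) : ℂ) ^ (-a)) /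
    (DD n (fun u => ((d2 u v : ℝ) : ℂ) ^ a) * DD n (fun u => ((d2 u w : ℝ) : ℂ) ^ (-a)))) atTop
    (𝓝 (cexp (a ^ 2 * ((1 + Real.log (d2 v w) : ℝ) : ℂ))))

/-- ASM: the ratio of the multi point and the one point functions -/
def S_ASM : Prop := ∀ (k : ℕ) (P : Fin k → Om) (q : Fin k → ℂ), (∀ i, nn2 (P i) ≠ 0) →
  (∀ i j, i ≠ j → 0 < d2 (P i) (P j)) → (∀ i, -1 < (q i).re) →
  Tendsto (fun n => DD n (fun v => ∏ i, ((d2 v (P i) : ℝ) : ℂ) ^ (q i)) /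
    ∏ i, DD n (fun v => ((d2 v (P i) : ℝ) : ℂ) ^ (q i))) atTop
    (𝓝 (cexp (-∑ i, ∑ j ∈ Finset.univ.filter (fun j => i < j),
      q i * q j * ((1 + Real.log (d2 (P i) (P j)) : ℝ) : ℂ))))

/-- the final statement -/
def S_RES : Prop := ∀ (k : ℕ) (P : Fin k → S2) (γ : Fin k → ℂ), Function.Injective P →
  (∀ i, -2 < (γ i).re) →
  (∀ n, Integrable (fun x : Mt n n × Mt n n => cexp (∑ i, γ i * ((Lg x (P i) : ℝ) : ℂ))) (gg n)) ∧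
  Tendsto (fun n : ℕ => (∫ x, cexp (∑ i, γ i * ((Lg x (P i) : ℝ) : ℂ)) ∂gg n) /
    (cexp (-(∑ i, γ i) / 2 * n - (∑ i, γ i) / 4 - (∑ i, γ i) ^ 2 / 8) *
      (2 * (Real.pi : ℂ)) ^ ((∑ i, γ i) / 4) * (n : ℂ) ^ ((∑ i, γ i ^ 2) / 8) /
      (∏ i, ∏ j ∈ Finset.univ.filter (fun j => i < j),
        ((‖(P i : R3) - (P j : R3)‖ / 2 : ℝ) : ℂ) ^ (γ i * γ j / 2)) /
      ∏ i, barnesG (1 + γ i / 2))) atTop (𝓝 1)

end

end Pool.Agent.P8H98.FM
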