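import Pool.Agent.P8H98.FM.Stm

/-!
Project FM (helper98): more statements (facts on Lipschitz symbols used by MUL).
-/

set_option autoImplicit false

open MeasureTheory Complex Filter Topology
open scoped ENNReal NNReal ComplexConjugate

namespace Pool.Agent.P8H98.FM

open Pool.Agent.R923.SE Pool.Agent.K7.H95.GMC

noncomputable section

/-- the row vector field `φ(v)* (b(v) - T(b))` -/
def gf (n : ℕ) (b : Om → ℂ) (v : Om) (l : Fin n) : ℂ :=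
  b v * conj (ph n v l) - ∑ i, conj (ph n v i) * TT n b i l

/-- LIP2: facts on Lipschitz symbols -/
def S_LIP2 : Prop :=
  (∀ b, Lp b → ∃ C : ℝ, 0 ≤ C ∧ ∀ (n : ℕ) (v : Om), nn2 v ≠ 0 → ns (gf n b v) ≤ C) ∧
  (∀ b, Lp b → ∃ C : ℝ, 0 ≤ C ∧ ∀ n : ℕ, 1 ≤ n → ∀ f : Fin n → ℂ,
    ∫ v, ‖∑ l, gf n b v l * f l‖ ^ 2 ∂sg ≤ C / n * ns f) ∧
  (∀ b c, Lp b → Lp c → ∃ C : ℝ, 0 ≤ C ∧ ∀ n : ℕ, 1 ≤ n → ∀ x : Fin n → ℂ,
    ns ((TT n (fun v => b v * c v) - TT n b * TT n c).mulVec x) ≤ C / n * ns x) ∧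
  ∀ b c, Lp b → Lp c → ∃ C : ℝ, 0 ≤ C ∧ ∀ n : ℕ, 1 ≤ n → ∀ v : Om, nn2 v ≠ 0 →
    ns (fun l => b v * gf n c v l - ∑ i, gf n c v i * TT n b i l) ≤ C / n

end

end Pool.Agent.P8H98.FM
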